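import Pool.Agent.Helper76.ND.StD

/-!
# Project ND, part E: random walk, potential theory, iteration, counting

`S` is the shortcut map.  `wd t N` is the list of the parities of `S^[t-1] N, ..., N` (the last
letter is the parity of `N`).  `Gd D l`: every suffix of `l` of length `j` has between `j/2 - D` and
`j/2 + D` heads; for `l = wd t N` the suffix of length `j` is `wd j N`.

`II y f` is the integral of `f` against the measure `gg (N/y)/y` (support in `[y/2, 3y/2]`).  The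
density `gg` is the one for which the potential of the measure under the multiplicative random
walk `v ↦ v/2` or `3v/2` is `phi v = min 1 (1/v)` (`StPo`, `StTe`): so below `y` the potential does
not depend on `y`.  Hence `II y f` is nearly the same for all `y` in `[x^1.05, x^1.06]` if `f` is
invariant above `B ≤ x` (`StEq`), and this can be iterated (`StIt`).
-/

set_option autoImplicit false

noncomputable section

namespace Pool.Agent.Helper76.ND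

open Finset

/-- **Rl** (words and orbits).  Proof: (1) induction on `t`, `S^[t+1] N = S (S^[t] N)`
(`Function.iterate_succ_apply'`): if `S^[t] N = m` is odd then `2 S m = 3 m - 1` and
`3 (2^t m + cc l) = 2^(t+1) (S m) + 2^t + 3 cc l`; if it is even `2 S m = m`.
(2) induction on `l`: `l = false :: l'`: apply the induction hypothesis to `2 M` (`S (2M) = M`);
`l = true :: l'`, `|l'| = t`: the number is `2^t (2M+1) + 3 cc l'`, so `3 ∣ 2M+1`, `M' = (2M+1)/3` is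
odd, `S M' = M`, `(2^t (2M+1) + 3 cc l')/3 = 2^t M' + cc l'`, apply the induction hypothesis to `M'`.
(3) induction, `wd (t+1) N = _ :: wd t N`. -/
def StRl : Prop :=
  (∀ t N : ℕ, 3 ^ hd (wd t N) * N = 2 ^ t * S^[t] N + cc (wd t N)) ∧
  (∀ (l : List Bool) (M : ℕ), 3 ^ hd l ∣ 2 ^ l.length * M + cc l →
    S^[l.length] ((2 ^ l.length * M + cc l) / 3 ^ hd l) = M ∧
    wd l.length ((2 ^ l.length * M + cc l) / 3 ^ hd l) = l) ∧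
  (∀ t j N : ℕ, j ≤ t → (wd t N).drop (t - j) = wd j N)

/-- **Bw** (the sum over `N` as a sum over `M = S^[t] N` and words).  Proof: by `StRl` the map
`N ↦ (S^[t] N, wd t N)` is a bijection from `ℕ` to the pairs `(M, l)` with `|l| = t` and
`3^(hd l) ∣ 2^t M + cc l`, with inverse `(2^t M + cc l)/3^(hd l)` (`sum_bij'` after discarding the
terms with `F = 0` or `G = 0`; `N ≥ 1` gives `S^[t] N ≥ 1`). -/
def StBw : Prop := ∀ (t L L' : ℕ) (F G : ℕ → ℝ), (∀ N, N = 0 ∨ L < N → F N = 0) →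
  (∀ M, M = 0 ∨ L' < M → G M = 0) →
  ∑ N ∈ Icc 1 L, F N * G (S^[t] N) = ∑ M ∈ Icc 1 L', G M *
    ∑ l ∈ (W t).filter (fun l => 3 ^ hd l ∣ 2 ^ t * M + cc l), F ((2 ^ t * M + cc l) / 3 ^ hd l)

/-- **Cy** (cylinders).  Proof: if `wd t N = wd t N' = w` then by `StRl` (1)
`3^(hd w) N ≡ cc w ≡ 3^(hd w) N'` modulo `2^t`, so `N ≡ N'` modulo `2^t`; a residue class modulo
`P` has at most `n / P + 1` elements in `Icc 1 n`. -/
def StCy : Prop := ∀ (t n : ℕ) (w : List Bool),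
  ((Icc 1 n).filter (fun N => wd t N = w)).card ≤ n / 2 ^ t + 1

open Classical in
/-- **Bd** (bad words are rare).  Proof: if `l` is bad, `D < |hd (suffix of length j) - j/2|` for some
`1 ≤ j ≤ t` (`j = 0` is impossible as `D ≥ 0`).  For fixed `j` the number of such words is
`2^(t-j)` times the number of words `w` of length `j` with `D < |hd w - j/2|` (`sum_W_append`),
which is at most `2^j * 2 exp (-2D²/j)` by `StHo` and `card_hd`; and `exp (-2D²/j) ≤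
exp (-2D²/t)`. -/
def StBd : Prop := ∀ (t : ℕ) (D : ℝ), 1 ≤ t → 0 ≤ D →
  (((W t).filter (fun l => ¬ Gd D l)).card : ℝ) ≤ 2 * t * 2 ^ t * Real.exp (-(2 * D ^ 2 / t))

open Classical in
/-- **Bn** (bad numbers are rare).  Proof: sum `StCy` over the bad words `w ∈ W t`
(`n / 2^t + 1 ≤ 2 n / 2^t` since `2^t ≤ n`) and `StBd`. -/
def StBn : Prop := ∀ (n t : ℕ) (D : ℝ), 1 ≤ t → 2 ^ t ≤ n → 0 ≤ D →
  (((Icc 1 n).filter (fun N => ¬ Gd D (wd t N))).card : ℝ) ≤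
    4 * n * t * Real.exp (-(2 * D ^ 2 / t))

/-- **Dr** (drift of the constant term).  Proof: induction on `l`.  `Gd D (x :: l')` implies
`Gd D l'` (same suffixes).  With `c l = cc l / 3^(hd l)`: `c (false :: l') = c l'`,
`c (true :: l') = 2^|l'| / 3^(hd l' + 1) + c l'`, and `hd l' + 1 = hd l ≥ |l|/2 - D`, so the first
term is at most `2^(|l|-1) 3^(D - |l|/2) ≤ (2/√3)^|l| 3^D`; `2/√3 ≥ 1`. -/
def StDr : Prop := ∀ (l : List Bool) (D : ℝ), 0 ≤ D → Gd D l →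
  (cc l : ℝ) ≤ 3 ^ hd l * (l.length * (2 / Real.sqrt 3) ^ l.length * (3 : ℝ) ^ D)

/-- **Pr** (parameters).  Proof: `rho = log (2/√3)`.  `t1 = ⌊(log y - 1.01 log x)/rho⌋`, and
`0.04 log x ≤ log y - 1.01 log x ≤ 0.05 log x` for `YR x y`; so `t1 ≤ 0.05 log x/0.143 ≤ log x/2`,
`t1 log 2 ≤ 0.05 * 0.6932/0.143 log x ≤ log x/4`, `t1 * rho ≤ 0.05 log x`.
`log (4/3) ∈ (0.286, 0.288)`.  The last item: `log` of the left side is
`log log x + (log x)^(2/3) log 3`, which is `≤ log x - log 8` for large `x`. -/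
def StPr : Prop := ∃ x0 : ℝ, 3 ≤ x0 ∧ ∀ x y : ℝ, x0 ≤ x → YR x y →
  1 ≤ Real.log x ∧ x ≤ y ∧ 1 ≤ t1 x y ∧ (t1 x y : ℝ) ≤ Real.log x / 2 ∧
  (2 : ℝ) ^ (t1 x y) ≤ x ^ (1 / 4 : ℝ) ∧
  101 / 100 * Real.log x ≤ Real.log y - rho * t1 x y ∧
  Real.log y - rho * t1 x y < 101 / 100 * Real.log x + rho ∧
  (2 / Real.sqrt 3) ^ (t1 x y) ≤ x ^ (1 / 20 : ℝ) ∧ 143 / 1000 < rho ∧ rho < 144 / 1000 ∧
  105 / 100 * Real.log x ≤ Real.log y ∧ Real.log y ≤ 106 / 100 * Real.log x ∧ zr x ≤ y ∧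
  Real.log x / 2 * (3 : ℝ) ^ (Real.log x ^ (2 / 3 : ℝ)) ≤ x / 8

/-- **Vh** (position after `t` steps).  Proof: `l = wd t N` (`t ≤ t1`) is a suffix of `wd t1 N`, so
it is good with `D = (log x)^(2/3) ≥ 1`; `h = hd l`, `|h - t/2| ≤ D`.  `StRl`:
`S^[t] N = (3^h/2^t) (N - cc l/3^h)`, and by `StDr`, `StPr`:
`cc l/3^h ≤ (log x/2) x^(1/20) 3^D ≤ x^(21/20)/8 ≤ y/4 ≤ N/2`.  So
`log S^[t] N = h log 3 - t log 2 + log N + θ` with `-log 2 ≤ θ ≤ 0`,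
`h log 3 - t log 2 = - rho t + (h - t/2) log 3`, `|log N - log y| ≤ log 2`; total error
`≤ 1.1 D + 1.39 ≤ 3 D`.  (Take `x0` larger so that `log x ≥ 1`.) -/
def StVh : Prop := ∃ x0 : ℝ, 3 ≤ x0 ∧ ∀ (x y : ℝ) (N : ℕ), x0 ≤ x → YR x y → y / 2 ≤ N →
  (N : ℝ) ≤ 3 / 2 * y → Gd (Real.log x ^ (2 / 3 : ℝ)) (wd (t1 x y) N) → ∀ t ≤ t1 x y,
  |Real.log (S^[t] N : ℕ) - (Real.log y - rho * t)| ≤ 3 * Real.log x ^ (2 / 3 : ℝ)

/-- **Vi** (visits to the window).  Proof: `L = log x`, `D = L^(2/3)`, `u t = log y - rho t`.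
(1) `log S^[t] N ≥ u t - 3 D ≥ 1.01 L - 3 D > L` if `L^(1/3) > 300` (`StPr` (6)).
(2) `kap x M = rho/(L/100)` iff `1.03 L ≤ log M ≤ 1.04 L`.  By `StVh` every `t ≤ t1` with
`1.03 L + 3 D ≤ u t ≤ 1.04 L - 3 D` is counted and only those with
`1.03 L - 3 D ≤ u t ≤ 1.04 L + 3 D`.  For `1.01 L + rho ≤ a ≤ b ≤ 1.05 L` the `t ∈ ℕ` with
`a ≤ u t ≤ b` are the integers of the interval `[(log y - b)/rho, (log y - a)/rho]`, all of them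
belong to `range (t1 + 1)` (`StPr` (6),(7),(11)); their number differs from `(b-a)/rho` by at most
`1`.  So the sum is `1 + O((600 D + 100 rho)/L)`; `D/L = L^(-1/3)`, `1/L ≤ L^(-1/3)`.
Uses `StPr`, `StVh`. -/
def StVi : Prop := ∃ x0 C : ℝ, 3 ≤ x0 ∧ 0 < C ∧ ∀ (x y : ℝ) (N : ℕ), x0 ≤ x → YR x y →
  y / 2 ≤ N → (N : ℝ) ≤ 3 / 2 * y → Gd (Real.log x ^ (2 / 3 : ℝ)) (wd (t1 x y) N) →
  (∀ t ≤ t1 x y, x < (S^[t] N : ℕ)) ∧
  |∑ t ∈ range (t1 x y + 1), kap x (S^[t] N) - 1| ≤ C * Real.log x ^ (-(1 / 3) : ℝ)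

/-- **Po** (potential theory of the density).  Proof: all by the cases `v ≤ 1/2`, `1/2 < v ≤ 1`,
`1 < v ≤ 3/2`, `v > 3/2`.  (1) `v ≤ 1/2`: `1 = 1/2 + 1/2`; `1/2 < v ≤ 1`:
`1 = 1/(4v) + 1/2 + (1/2 - 1/(4v))`; `1 < v ≤ 3/2`: `1/v = 1/(4v) + 1/2 + (3/(4v) - 1/2)`;
`v > 3/2`: `1/v = 1/(4v) + 3/(4v)`.  (2) `gg` increases on `[1/2, 1]` from `0` to `1/4`, decreases on
`[1, 3/2]` to `0` (`gg v = (2v-1)/(4v²)`, `(3-2v)/(4v²)`); `v gg v = 1/2 - 1/(4v)`, `3/(4v) - 1/2`.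
(5) on `[1/2,1]` the slope is `(1-v)/(2v³) ∈ [0,2]`, on `[1,3/2]` it is in `[-1,0]`; `gg` is
continuous (zero at `1/2` and `3/2`).  (6) `gg (3/4) = 2/9`, `gg (5/4) = 2/25`, monotone pieces.
(7) `v ≤ 1`: `1 ≤ v^(-1/4)`; `v ≥ 1`: `1/v ≤ v^(-1/4)`. -/
def StPo : Prop :=
  (∀ v : ℝ, 0 < v → phi v = phi (2 * v) / 2 + phi (2 * v / 3) / 2 + v * gg v) ∧
  (∀ v : ℝ, 0 ≤ gg v ∧ gg v ≤ 1 / 4 ∧ 0 ≤ v * gg v ∧ v * gg v ≤ 1 / 4) ∧
  (∀ v : ℝ, v ≤ 1 / 2 → gg v = 0) ∧ (∀ v : ℝ, 3 / 2 ≤ v → gg v = 0) ∧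
  (∀ v w : ℝ, |gg v - gg w| ≤ 2 * |v - w|) ∧
  (∀ v : ℝ, 3 / 4 ≤ v → v ≤ 5 / 4 → 2 / 25 ≤ gg v) ∧
  (∀ v : ℝ, 0 < v → phi v ≤ v ^ (-(1 / 4) : ℝ)) ∧
  (∀ v : ℝ, 0 < v → v ≤ 1 → phi v = 1) ∧ (∀ v : ℝ, 0 < v → 0 ≤ phi v)

/-- **Fw** (forward identity).  Proof: `t1 = t1 x y`, `D = (log x)^(2/3)`.  By `StBw` with
`F = mu y`, `G = kap x * f` (`L = ⌊2y⌋`, `L' = ⌊zr x⌋`),
`Aw x y f = ∑_{N ≤ 2y} mu y N ∑_{t ≤ t1} kap x (S^[t] N) f (S^[t] N)`.  So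
`|II - Aw| ≤ ∑ mu y N |f N - ∑_t kap (S^[t] N) f (S^[t] N)|`; only `y/2 ≤ N ≤ 3y/2` matter (`StPo`).
* `wd t1 N` good: by `StVi` (1) and `Inv`, `f (S^[t] N) = f N` for `t ≤ t1`, so the difference is
  `f N |1 - ∑ kap| ≤ C (log x)^(-1/3)`; `∑ mu y N ≤ 2y/(4y) = 1/2`.
* bad: the difference is at most `1 + (t1+1) rho/(log x/100) ≤ 30` (`StPr`), `mu y N ≤ 1/(4y)`, and by
  `StBn` (`n = ⌊2y⌋`; `2^t1 ≤ x^(1/4) ≤ n`) the number of bad `N` is at most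
  `8 y t1 exp (-2D²/t1) ≤ 4 y log x exp (-4 (log x)^(1/3))` (`t1 ≤ log x/2`); with
  `u = (log x)^(1/3)`, `u³ exp (-4u) ≤ 1/u` (as `exp (4u) ≥ (4u)⁴/24`).
Uses `StBw`, `StBn`, `StPr`, `StPo`, `StVi`. -/
def StFw : Prop := ∃ x0 C : ℝ, 3 ≤ x0 ∧ 0 < C ∧ ∀ (x y : ℝ) (B : ℕ) (f : ℕ → ℝ), x0 ≤ x →
  YR x y → (∀ N, 0 ≤ f N ∧ f N ≤ 1) → (B : ℝ) ≤ x → Inv B f →
  |II y f - Aw x y f| ≤ C * Real.log x ^ (-(1 / 3) : ℝ)

/-- **Li** (replace the preimages by `2^t M/3^k`).  Proof: `D = (log x)^(2/3)`, `κ = rho/(log x/100)`,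
`V = 2^t M/3^k/y`, `V' = (2^t M + cc l)/3^k/y` (`k = hd l`; exact division), `V ≤ V'`.  A summand
`|mu y ((2^t M + cc l)/3^k) - gg V/y| = |gg V' - gg V|/y` is zero unless `V ≤ 3/2` (`StPo`), i.e.
`M ≤ (3/2) y 3^k/2^t`; for fixed `l ∈ W t` the `M` with `3^k ∣ 2^t M + cc l` form one residue class
modulo `3^k`, so the number of such `M ≥ 1` is at most `(3/2) y/2^t + 1 ≤ (5/2) y/2^t`
(`2^t ≤ x^(1/4) ≤ y`).
* good `l`: `V' - V = cc l/3^k/y ≤ Γ/y`, `Γ = t1 (2/√3)^t1 3^D ≤ x^(21/20)/8`... precisely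
  `Γ ≤ (log x/2) x^(1/20) 3^D` (`StDr`, `StPr`); the summand is `≤ 2 Γ/y²`, the number of pairs is at
  most `2^t (5/2) y/2^t`; total for each `t`: `5 Γ/y ≤ (5/2) log x 3^D/x`.
* bad `l`: the summand is `≤ 1/(4y)`; pairs `≤ #bad (5/2) y/2^t`; by `StBd` total for each `t`
  (`1 ≤ t ≤ t1`): `≤ (5/4) t exp (-2D²/t) ≤ (5/8) log x exp (-4 (log x)^(1/3))`; none for `t = 0`.
Sum over `t ≤ t1` with `kap ≤ κ` and `κ (t1+1) ≤ 30`; both bounds are `≤ C/log x` (with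
`u = (log x)^(1/3)`: `u⁶ exp (-4u)` is bounded; `(log x)² 3^D/x` is bounded).
Uses `StBd`, `StDr`, `StPr`, `StPo`. -/
def StLi : Prop := ∃ x0 C : ℝ, 3 ≤ x0 ∧ 0 < C ∧ ∀ (x y : ℝ) (f : ℕ → ℝ), x0 ≤ x → YR x y →
  (∀ N, 0 ≤ f N ∧ f N ≤ 1) → |Aw x y f - Ag x y f| ≤ C / Real.log x

/-- **Er** (replace the number of preimages by its mean).  Proof: `κ = rho/(log x/100)`,
`V = V_k = 2^t (M/y)/3^k`.  Grouping the words by `k = hd l ≤ t`, the inner sum of `Ag` is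
`∑_{k ≤ t} 2^t nt k t M gg V/y = ∑_k (3^k nt k t M/M) V gg V` (`2^t/y = 3^k V/M`).  So `Ag - Am` is
`∑_t ∑_M ∑_{k ≤ t} (kap f/M) (3^k nt k t M - q t k 3^m pim m M) V gg V`.  `0 ≤ V gg V ≤ 1/4`, and it is
zero unless `V ∈ [1/2, 3/2]`, i.e. `M ∈ [a, 3a]`, `a = 3^k y/2^(t+1)`; there `1/M ≤ 1/a`; and
`2^t ≤ y`, `3^m 2^t ≤ y`.
* `k ≥ m`: `g M = |nt k t M - q t k pim m M/3^(k-m)|` has period `3^k` (`StNs`), so by `StPe` (2)
  `∑_{M ∈ [a,3a]} g M ≤ ((2a+1)/3^k + 1) Del m k t ≤ 3 (y/2^t) Del m k t`; the contribution is at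
  most `κ (1/4) (1/a) 3^k 3 (y/2^t) Del = (3/2) κ Del m k t`.
* `k < m`: the same with `nt k t` (period `3^k`, `∑ = q t k`) gives `(3/2) κ q t k`, and with
  `pim m` (period `3^m`, `∑ ≤ 1`): `∑_{[a,3a]} pim m M ≤ (2a+1)/3^m + 1 ≤ 3 · 3^k y/(2^t 3^m)`
  (as `3^m ≤ 3^k y/2^t`), contribution `κ (1/4) (1/a) q t k 3^m · 3 · 3^(k-m) y/2^t =
  (3/2) κ q t k`.  Sum over `t`: `∑_t q t k ≤ 2` (`StQs`), over `k < m`: total `6 κ m`.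
Uses `StNs`, `StPe`, `StQs`, `StPo`. -/
def StEr : Prop := ∀ (x y : ℝ) (m : ℕ) (f : ℕ → ℝ), 1 < x → 0 < y →
  (∀ N, 0 ≤ f N ∧ f N ≤ 1) → (3 : ℝ) ^ m * 2 ^ (t1 x y) ≤ y →
  |Ag x y f - Am x y m f| ≤ rho / (Real.log x / 100) *
    (3 / 2 * ∑ t ∈ range (t1 x y + 1), ∑ k ∈ Icc m t, Del m k t + 6 * m)

/-- **Te** (telescoping).  Proof: induction on `T`; by `StPo` (1) at `w = 2^T v/3^k`,
`∑_k q T k phi w = ∑_k q T k (phi (2w)/2 + phi (2w/3)/2) + ∑_k q T k w gg w`, and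
`∑_{k ≤ T} (q T k/2) (phi (2^(T+1) v/3^k) + phi (2^(T+1) v/3^(k+1))) =
∑_{k ≤ T+1} q (T+1) k phi (2^(T+1) v/3^k)` by Pascal. -/
def StTe : Prop := ∀ (T : ℕ) (v : ℝ), 0 < v →
  ∑ t ∈ range T, ∑ k ∈ range (t + 1), q t k * ((2 ^ t * v / 3 ^ k) * gg (2 ^ t * v / 3 ^ k)) =
    phi v - ∑ k ∈ range (T + 1), q T k * phi (2 ^ T * v / 3 ^ k)

/-- **Tl** (tail).  Proof: `phi w ≤ w^(-1/4)` (`StPo` (7)); binomial theorem:
`∑_k q T k (2^T v/3^k)^(-1/4) = v^(-1/4) ((1 + 3^(1/4))/2^(5/4))^T`, and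
`(1 + 3^(1/4))/2^(5/4) ≤ (3/4)^(7/80)`: `3^(1/4) ≤ 1.31608`, `2^(5/4) ≥ 2.3784`, and
`(2.31608/2.3784)^80 ≤ (3/4)^7` (`0.1193 ≤ 0.1334`). -/
def StTl : Prop := ∀ (T : ℕ) (v : ℝ), 0 < v →
  ∑ k ∈ range (T + 1), q T k * phi (2 ^ T * v / 3 ^ k) ≤
    v ^ (-(1 / 4) : ℝ) * (3 / 4 : ℝ) ^ (7 * T / 80 : ℝ)

/-- **Mn** (main term).  Proof: `L = log x`, `T = t1 + 1 ≥ (log y - 1.01 L)/rho`.
`Am - JJ = ∑_M kap f (3^m pim m M/M) (∑_{t<T} ∑_k q t k V gg V - 1)`, by `StTe` (`v = M/y ≤ zr x/y ≤ 1`,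
`phi v = 1`) the bracket is `- ∑_k q T k phi (2^T v/3^k)`, of absolute value at most
`v^(-1/4) (3/4)^(7T/80)` (`StTl`, `StPo` (9)).  If `kap x M ≠ 0` then `M ≥ x^(103/100)` and
(`log (3/4) = -2 rho`) this is at most
`exp ((log y - 1.03 L)/4 - (7/40) (log y - 1.01 L)) = exp (0.075 log y - 0.08075 L) ≤ x^(-1/800)`
(`log y ≤ 1.06 L`).  `pim m M ≤ 1` (`StNs` (6), every residue), `∑_{M ≤ zr x} 1/M ≤ 1 + log (zr x) ≤
1 + 1.04 L`, `kap ≤ 15/L`: total `≤ 40 · 3^m x^(-1/800) ≤ 40 x^(-3/4000) ≤ C/L`.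
Uses `StPr`, `StNs`, `StPo`, `StTe`, `StTl`. -/
def StMn : Prop := ∃ x0 C : ℝ, 3 ≤ x0 ∧ 0 < C ∧ ∀ (x y : ℝ) (m : ℕ) (f : ℕ → ℝ), x0 ≤ x →
  YR x y → (∀ N, 0 ≤ f N ∧ f N ≤ 1) → (3 : ℝ) ^ m ≤ x ^ (1 / 2000 : ℝ) →
  |Am x y m f - JJ x m f| ≤ C / Real.log x

/-- **Sd** (sum of the mixing errors).  Proof: interchange the sums, `k` runs over `Icc m T` and
`∑_{t ≤ T} Del m k t` is at most `4` for `k ≤ 8m` (`StMi` (1)) and at most `C (m^(-1/200) + m/√k)`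
for `k > 8m` (`StMi` (2)); `∑_{k ≤ T} 1/√k ≤ 2 √T`. -/
def StSd : Prop := ∃ C : ℝ, 0 < C ∧ ∀ m T : ℕ, 1 ≤ m →
  ∑ t ∈ range (T + 1), ∑ k ∈ Icc m t, Del m k t ≤
    C * (m + T * (m : ℝ) ^ (-(1 / 200) : ℝ) + m * Real.sqrt T)

/-- **Eq** (the integral is nearly constant in `y`).  Proof: `L = log x`, `m = ⌈L^(1/8)⌉`,
`L^(1/8) ≤ m ≤ 2 L^(1/8)`; for `x` large `3^m ≤ x^(1/2000)` and `3^m 2^t1 ≤ x^(1/2000 + 1/4) ≤ y`.
`|II y f - JJ x m f|` is at most the sum of the errors in `StFw`, `StLi`, `StEr`, `StMn`; by `StSd` and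
`t1 ≤ L/2`, `rho/(L/100) ≤ 15/L` the third is at most
`C ((m + L m^(-1/200) + m √L)/L) ≤ C' (L^(-7/8) + L^(-1/1600) + L^(-3/8))`.  So everything is
`≤ C'' L^(-1/1600)`.  The same for `y'`, and `JJ x m f` does not depend on `y`.  For
`2 ≤ x ≤ x0`: `0 ≤ II ≤ 1/2` (`⌊2y⌋` terms of size `≤ 1/(4y)`, `StPo`) and
`(log x)^(-1/1600) ≥ (log x0)^(-1/1600)`.
Uses `StPr`, `StPo`, `StFw`, `StLi`, `StEr`, `StMn`, `StSd`. -/
def StEq : Prop := ∃ C : ℝ, 0 < C ∧ ∀ (x y y' : ℝ) (B : ℕ) (f : ℕ → ℝ), 2 ≤ x → YR x y →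
  YR x y' → (∀ N, 0 ≤ f N ∧ f N ≤ 1) → (B : ℝ) ≤ x → Inv B f →
  |II y f - II y' f| ≤ C * Real.log x ^ (-(1 / 1600) : ℝ)

/-- **Bs** (base of the iteration).  Proof: `f = fB B`.  If `2y ≤ B` then `f N = 0` for all `N ≤ 2y`
(`k = 0`), `II = 0`.  For `B < 200`, `II ≤ 1/2 ≤ C/log B`.  Let `B ≥ 200`, `y > B/2`,
`t = ⌊log y/log 2⌋` (so `2^t ≤ y`, `t ≥ 1`), `D = log y/50`.  If `N ≤ 3y/2` and `wd t N` is good then
(`StRl`) `S^[t] N ≤ 3^h N/2^t`, `h ≤ t/2 + D`, so `log S^[t] N ≤ log (3/2) + log y - rho t + D log 3 ≤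
0.8145 log y + 0.55 ≤ 0.896 log B + 0.55 ≤ log B` (`t ≥ log y/log 2 - 1`, `rho/log 2 ≥ 0.2075`,
`log B ≥ 5.29`), so `f N = 0`.  The bad `N ≤ ⌊2y⌋`: `StBn`: at most
`8 y t exp (-2D²/t)`, `t ≤ 1.4427 log y`, `2D²/t ≥ log y/2000`; so
`II ≤ (1/(4y)) 8 y t exp (- log y/2000) ≤ 3 log y exp (- log y/2000) ≤ C/log y ≤ C'/log B`
(`log y ≥ log B - log 2`).  Uses `StRl`, `StBn`, `StPo`. -/
def StBs : Prop := ∃ C : ℝ, 0 < C ∧ ∀ (B : ℕ) (y : ℝ), 2 ≤ B → 0 < y →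
  y ≤ (B : ℝ) ^ (11 / 10 : ℝ) → II y (fB B) ≤ C / Real.log B

/-- **It** (iteration).  Proof: `a = 1/1600`, `f = fB B` (`Inv B f`: for `N > B` the orbit of `N` stays
above `B` iff that of `S N` does).  `C0` from `StEq`, `C1` from `StBs`, `C1' = C1 (log 2)^(a-1)` so
that `C1/log B ≤ C1' (log B)^(-a)`; `β = (106/105)^a - 1`, `A' = C0 (106/100)^a/β`, `A = A' + C1'`.
For `y < B` use `StBs`.  Claim for `y ≥ B`: `II y f ≤ A (log B)^(-a) - A' (log y)^(-a)`.  Induction on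
`n` for `log y ≤ (106/105)^n (11/10) log B`.
* `y ≤ B^(11/10)`: `StBs` and `(log y)^(-a) ≤ (log B)^(-a)`.
* `y > B^(11/10)`: `x = y^(100/106)`, `y' = y^(105/106)`; then `YR x y`, `YR x y'`, `x ≥ B ≥ 2`
  (`(11/10)(100/106) ≥ 1`), `y' ≥ B`.  `StEq`: `II y f ≤ II y' f + C0 (log x)^(-a)`;
  `(log y')^(-a) = (106/105)^a (log y)^(-a)`, `(log x)^(-a) = (106/100)^a (log y)^(-a)`; so the
  induction hypothesis gives
  `II y f ≤ A (log B)^(-a) - (log y)^(-a) (A' (106/105)^a - C0 (106/100)^a)`, and the last bracket is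
  `A'`. -/
def StIt : Prop := ∃ C : ℝ, 0 < C ∧ ∀ (B : ℕ) (y : ℝ), 2 ≤ B → 0 < y →
  II y (fB B) ≤ C * Real.log B ^ (-(1 / 1600) : ℝ)

open Classical in
/-- **Ct** (counting).  Proof: strong induction on `n` with the constant `25 C`, `C` from `StIt`:
`Icc 1 n` is the union of `Icc 1 ⌊3n/5⌋` and the `N` with `3n/5 < N ≤ n`; with `y = 4n/5` the latter
have `3/4 ≤ N/y ≤ 5/4`, so `mu y N ≥ (2/25)/y` (`StPo` (6)) and `N ≤ 2y`; hence their number is at most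
`(25/2) y II y (fB B) ≤ 10 C n (log B)^(-1/1600)`, and `25 C (3n/5) + 10 C n = 25 C n`. -/
def StCt : Prop := ∃ C : ℝ, 0 < C ∧ ∀ (B n : ℕ), 2 ≤ B →
  (((Icc 1 n).filter (fun N => ∀ k, B < S^[k] N)).card : ℝ) ≤
    C * n * Real.log B ^ (-(1 / 1600) : ℝ)

open Classical in
/-- **Fi** (final theorem for the map `T` of the problem).  Proof: `S n = T n` for `n` even and
`S n = T (T n)` for `n` odd (`3n - 1` is even), so every `S^[k] N` is some `T^[j] N` and the set for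
`T` is contained in the set for `S`: (1) is `StCt`.  (2) Given `ε > 0` choose `B` with
`C (log B)^(-1/1600) < ε` and `n0` with `F n > B` for `n ≥ n0`.  If `n ≥ n0` and no `k` has
`T^[k] n < F n` then `T^[k] n ≥ F n > B` for all `k`; so the complement has at most
`n0 + C x (log B)^(-1/1600)` elements in `Icc 1 x`. -/
def StFi : Prop := (∃ C : ℝ, 0 < C ∧ ∀ (B x : ℕ), 2 ≤ B →
    (((Icc 1 x).filter (fun n => ∀ k, B < T^[k] n)).card : ℝ) ≤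
      C * x / Real.log B ^ (1 / 1600 : ℝ)) ∧
  (∀ F : ℕ → ℝ, Filter.Tendsto F Filter.atTop Filter.atTop →
    Filter.Tendsto (fun x : ℕ =>
      (((Icc 1 x).filter (fun n => ∃ k, ((T^[k] n : ℕ) : ℝ) < F n)).card : ℝ) / x)
      Filter.atTop (nhds 1))

end Pool.Agent.Helper76.ND
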