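import Pool.Agent.Helper76.ND.StC

/-!
# Project ND, part D: mixing of the residues modulo powers of three

Goal of this part: `StMi`, the mean over `t` of `Del m k t` is small.

Words: `l ∈ W s` is the list of the parities, the LAST letter is the first step.  `Yz n l` is
`cc l / 2 ^ |l|` modulo `3 ^ n`.  `te l = true`: the last letter is a head (or `l = []`).
Useful lemmas in `Lib.lean`: `sum_W_succ`, `sum_W_snoc`, `sum_W_append`, `sum_first`, `cc_append`,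
`te_snoc`, `te_append`, `card_hd`, `card_hd_te`.
-/

set_option autoImplicit false

noncomputable section

namespace Pool.Agent.Helper76.ND

open Finset

/-- **Ns** (periods and masses).  Proof: (1)-(3) `3^e ∣ 2^s (M + 3^e) + cc l ↔ 3^e ∣ 2^s M + cc l`.
(4)-(5) interchange the sums: for each word `l` there is exactly one `M ∈ range (3^e)` with
`3^e ∣ 2^s M + cc l` (`2` is invertible modulo `3^e`); then `card_hd_te`, `card_hd`.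
(6) `∑_{s ≤ 8m} qs m s ≤ 1` (`StGen` with `z = 1`).  (7) no word of length `t` has `k > t` heads;
`t.choose k = 0`. -/
def StNs : Prop :=
  (∀ e n s M, ns e n s (M + 3 ^ e) = ns e n s M) ∧
  (∀ k t M, nt k t (M + 3 ^ k) = nt k t M) ∧
  (∀ m M, pim m (M + 3 ^ m) = pim m M) ∧
  (∀ e n s, ∑ M ∈ range (3 ^ e), ns e n s M = qs n s) ∧
  (∀ k t, ∑ M ∈ range (3 ^ k), nt k t M = q t k) ∧
  (∀ m, ∑ M ∈ range (3 ^ m), pim m M ≤ 1) ∧
  (∀ k t M, t < k → nt k t M = 0 ∧ q t k = 0)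

/-- **Pe** (sums of periodic functions).  Proof: (1) induction on `Q` (`sum_range_add`, shift by
a multiple of the period).  (2) `Ico a b` is contained in `Ico a (a + P * Q)` with
`Q = ⌈(b-a)/P⌉ ≤ (b-a)/P + 1`, and a sum over `P` consecutive integers equals the sum over
`range P` (induction on the left end), `g ≥ 0`. -/
def StPe : Prop :=
  (∀ (g : ℕ → ℝ) (P Q : ℕ), (∀ M, g (M + P) = g M) →
    ∑ M ∈ range (P * Q), g M = Q * ∑ M ∈ range P, g M) ∧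
  (∀ (g : ℕ → ℝ) (P a b : ℕ), 1 ≤ P → (∀ M, 0 ≤ g M) → (∀ M, g (M + P) = g M) → a ≤ b →
    ∑ M ∈ Ico a b, g M ≤ (((b : ℝ) - a) / P + 1) * ∑ M ∈ range P, g M)

/-- **Qs** (masses).  Proof: (1) `StGen` with `z = 1`.  (2) `q t k = 2 * qs (k+1) (t+1)`.
(3) `qs m s ≤ (2/3)^(8m) (3/2)^s qs m s` for `s > 8m`; `StGen` with `z = 3/2`:
`≤ (2/3)^(8m) 3^m = (3 (2/3)^8)^m ≤ (1/8)^m`.
(4) identity `∑_{s ≤ K} qs n s + ∑_{k < n} q K k = 1` for all `n, K`: both sums satisfy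
`A (n+1) (K+1) = (A (n+1) K + A n K)/2` (`StCv`, Pascal), and the values at `n = 0` are `1 + 0`,
at `(n+1, 0)` they are `0 + 1`.  With `K = 8m`, `n = m`: `∑_{k<m} q (8m) k ≤ 7^m ∑ q (8m) k (1/7)^k
= 7^m (4/7)^(8m) ≤ (1/8)^m` (`7 (4/7)^8 < 1/8`). -/
def StQs : Prop :=
  (∀ n K, ∑ s ∈ range K, qs n s ≤ 1) ∧ (∀ k K, ∑ t ∈ range K, q t k ≤ 2) ∧
  (∀ m K, ∑ s ∈ Ico (8 * m + 1) K, qs m s ≤ 1 / 8 ^ m) ∧
  (∀ m, 1 - 1 / 8 ^ m ≤ ∑ s ∈ range (8 * m + 1), qs m s)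

/-- **Tr** (letters after the last head; they are the last letters of the list).  Proof: induction
on `t` with `sum_W_snoc`: a word `l ++ [false]` of length `t+1` has `cc (l ++ [false]) = 2 cc l`
and `3^k ∣ 2^(t+1) M + 2 cc l ↔ 3^k ∣ 2^t M + cc l`, so these words give `nt k t M / 2`; the words
`l ++ [true]` give exactly `ns k k (t+1) M`.  The right side satisfies the same recursion; `t = 0`:
`W 0 = {[]}`, `te [] = true`.  Second part: the same with `card_hd`, `card_hd_te`. -/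
def StTr : Prop :=
  (∀ k t M, nt k t M = ∑ s ∈ range (t + 1), ns k k s M / 2 ^ (t - s)) ∧
  (∀ k t, q t k = ∑ s ∈ range (t + 1), qs k s / 2 ^ (t - s))

/-- **Sp** (split after `m` heads).  Proof: induction on `n ≥ m`.  `n = m`: `qs 0 j = 1` only for
`j = 0`.  Step: words of length `s+1` with `n+1` heads ending in a head are `l ++ [true]`,
`cc (l ++ [true]) = 2 cc l + 3^n`, and as `e ≤ n`,
`3^e ∣ 2^(s+1) M + 2 cc l + 3^n ↔ 3^e ∣ 2^s M + cc l`; so `ns e (n+1) (s+1) M = ν e n s M / 2`,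
where `ν e n s M` is the same probability for all words of length `s` with `n` heads; as in
`StTr`, `ν e n s M = ∑_{s' ≤ s} ns e n s' M / 2^(s-s')`.  Hence
`ns e (n+1) s M = ∑_{s' ≤ s} ns e n s' M * qs 1 (s - s')` for all `s` (`qs 1 j = 2^(-j)` for
`j ≥ 1`, `qs 1 0 = 0`), and the induction step is associativity of the convolution:
`∑ qs (n-m) (s'-s'') qs 1 (s-s') = qs (n+1-m) (s-s'')` (`StCv`). -/
def StSp : Prop := ∀ e m n s M : ℕ, e ≤ m → m ≤ n →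
  ns e n s M = ∑ s' ∈ range (s + 1), ns e m s' M * qs (n - m) (s - s')

/-- **Yz** (residues and characters).  Proof: (1) `2` is a unit modulo `3^n`.  (2) `cc_append`.
(3) `cc_rep`, `cc_true`.  (4)-(6) `val (x+y) ≡ val x + val y`, `val (k x) ≡ k val x` modulo `3^n`,
`ev` has period one, `norm_ev`.  (7) definitions.  (8) `val (27 y) ≡ 27 val y` modulo `3^n`.
(9) the sum is multiplied by `chi n x ≠ 1` under `r ↦ r + 1`
(`ev (v / 3^n) = 1` with `0 ≤ v < 3^n` only for `v = 0`).  (10) `val (2 y) ≡ 2 val y`. -/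
def StYz : Prop :=
  (∀ n, (2 : ZMod (3 ^ n)) * hf n = 1) ∧
  (∀ n (a b : List Bool), Yz n (a ++ b) = Yz n a + 3 ^ hd a * hf n ^ a.length * Yz n b) ∧
  (∀ n (a : ℕ) (l : List Bool), 1 ≤ a →
    Yz n (List.replicate (a - 1) false ++ true :: l) = hf n ^ a * (1 + 3 * Yz n l)) ∧
  (∀ n (x y : ZMod (3 ^ n)), chi n (x + y) = chi n x * chi n y) ∧
  (∀ n (k : ℕ) (x : ZMod (3 ^ n)), chi n ((k : ZMod (3 ^ n)) * x) = chi n x ^ k) ∧
  (∀ n (x : ZMod (3 ^ n)), ‖chi n x‖ = 1) ∧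
  (∀ n (x : ZMod (3 ^ n)) (p : ℕ), chi n (x * hf n ^ p) = ev (Xf n x p)) ∧
  (∀ n (x : ZMod (3 ^ n)) (b a : ℕ),
    ∃ m : ℤ, Xf n (27 * hf n ^ b * x) a = 27 * Xf n x (b + a) + m) ∧
  (∀ n (x : ZMod (3 ^ n)), x ≠ 0 → ∑ r : ZMod (3 ^ n), chi n (x * r) = 0) ∧
  (∀ n (x : ZMod (3 ^ n)) (a : ℕ), ∃ m : ℤ, 2 * Xf n x (a + 1) = Xf n x a + m)

/-- **Wb** (splitting off a block with three heads).  Proof: `sum_first` three times: the words are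
`rep (a1-1) false ++ true :: rep (a2-1) false ++ true :: rep (a3-1) false ++ true :: l`, with
`p = a1`, `r = a1 + a2`, `b = a1 + a2 + a3 ≤ s`, and by (3) of `StYz`
`Y = hf^a1 (1 + 3 hf^a2 (1 + 3 hf^a3 (1 + 3 Y_l)))`.  Reindex the triple sum. -/
def StWb : Prop := ∀ (n s k : ℕ) (G : ZMod (3 ^ n) → ℝ),
  ∑ l ∈ (W s).filter (fun l => hd l = k + 3 ∧ te l = true), G (Yz n l) =
    ∑ b ∈ Icc 3 s, ∑ p ∈ Icc 1 (b - 1), ∑ r ∈ Icc (p + 1) (b - 1),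
      ∑ l ∈ (W (s - b)).filter (fun l => hd l = k ∧ te l = true),
        G (hf n ^ p + 3 * hf n ^ r + 9 * hf n ^ b + 27 * hf n ^ b * Yz n l)

/-- **Wc**.  Proof: (1) `StWb` with `G y = c (r - u y)`, and the definitions of `cb`, `P3`
(`(b-1).choose 2 ≠ 0` for `b ≥ 3`), interchange of finite sums.  (2)
`Fh (cb) ξ = Fh c ξ * mean_{p<r'} chi (ξ u (hf^p + 3 hf^r' + 9 hf^b))` (substitute
`r ↦ r + u(..)` in each summand), and by `StYz` `chi (..) = ev (X p + 3 X r') ev (X b)^9`,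
`X = Xf n (u ξ)`, `|ev (X b)^9| = 1`. -/
def StWc : Prop :=
  (∀ (n k s : ℕ) (c : ZMod (3 ^ n) → ℝ) (u r : ZMod (3 ^ n)),
    Rn n (k + 3) s c u r =
      ∑ b ∈ Icc 3 s, P3 b * Rn n k (s - b) (cb n b c u) (27 * hf n ^ b * u) r) ∧
  (∀ (n b : ℕ) (c : ZMod (3 ^ n) → ℝ) (u ξ : ZMod (3 ^ n)), 3 ≤ b →
    ‖Fh n (cb n b c u) ξ‖ ^ 2 = ‖Fh n c ξ‖ ^ 2 * fb b (Xf n (u * ξ)))

/-- **Pl** (Parseval).  Proof: (1) expand the square, orthogonality (9) of `StYz`.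
(2) Let `d r = c r - mean of c over r + 3^e ℤ`.  `Fh d ξ = Fh c ξ` if `3^e ξ ≠ 0` and `0` if
`3^e ξ = 0`: the transform of the mean is `Fh c ξ * (∑_{j < 3^(n-e)} chi (- ξ 3^e j)) / 3^(n-e)`,
and the sum over `j` is `3^(n-e)` if `3^e ξ = 0` and `0` otherwise (geometric sum of a root of
unity `chi (-ξ 3^e)` of order dividing `3^(n-e)`, different from `1`).  Then `O1 = ∑ |d r| ≤
√(3^n ∑ d^2) = √(∑ ‖Fh d ξ‖^2)`. -/
def StPl : Prop :=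
  (∀ n (c : ZMod (3 ^ n) → ℝ), ∑ ξ : ZMod (3 ^ n), ‖Fh n c ξ‖ ^ 2 = 3 ^ n * ∑ r, c r ^ 2) ∧
  (∀ n e (c : ZMod (3 ^ n) → ℝ), e ≤ n → O1 n e c ≤
    Real.sqrt (∑ ξ ∈ univ.filter (fun ξ : ZMod (3 ^ n) => 3 ^ e * ξ ≠ 0), ‖Fh n c ξ‖ ^ 2))

/-- **Ob** (properties of `O1`).  Proof: (1)-(4) triangle inequality, linearity.  (5) reindex the
sum over `r`.  (6) the mean over a class has `L^1` norm at most that of `c`
(for each `j`, `∑_r |c (r + 3^e j)| = ∑_r |c r|`).  (7) `Rn` is a sum of translates of `c / 2^s`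
over `2^s qs k s` words (`card_hd_te`). -/
def StOb : Prop :=
  (∀ n e (c : ZMod (3 ^ n) → ℝ), 0 ≤ O1 n e c) ∧
  (∀ n e (c c' : ZMod (3 ^ n) → ℝ), O1 n e (fun r => c r + c' r) ≤ O1 n e c + O1 n e c') ∧
  (∀ n e (a : ℝ) (c : ZMod (3 ^ n) → ℝ), O1 n e (fun r => a * c r) = |a| * O1 n e c) ∧
  (∀ n e (s : Finset ℕ) (F : ℕ → ZMod (3 ^ n) → ℝ),
    O1 n e (fun r => ∑ i ∈ s, F i r) ≤ ∑ i ∈ s, O1 n e (F i)) ∧
  (∀ n e (c : ZMod (3 ^ n) → ℝ) (a : ZMod (3 ^ n)), O1 n e (fun r => c (r - a)) = O1 n e c) ∧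
  (∀ n e (c : ZMod (3 ^ n) → ℝ), O1 n e c ≤ 2 * ∑ r, |c r|) ∧
  (∀ n e k s (c : ZMod (3 ^ n) → ℝ) (u : ZMod (3 ^ n)),
    O1 n e (Rn n k s c u) ≤ qs k s * O1 n e c)

/-- **Lb** (main `L^1` bound).  Proof: induction on `k` in steps of three (all `c, u`, `K, e, n`
fixed).  `k < 3`: `Psi K 0 = 1`; `∑_s O1 (Rn n k s c u) ≤ ∑_s qs k s O1 c ≤ O1 c` (`StOb`,
`StQs`) and `StPl`.  Step: by `StWc` (1) and `StOb`
`∑_{s ≤ K} O1 (Rn (k+3) s c u) ≤ ∑_{s ≤ K} ∑_{b ∈ Icc 3 s} P3 b O1 (Rn k (s-b) (cb b c u) (27 hf^b u))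
≤ ∑_{b ∈ Icc 3 K} P3 b ∑_{s' ≤ K} O1 (Rn k s' (cb b c u) (27 hf^b u))`; by the induction hypothesis
and `StWc` (2) the inner sum is at most `√(∑_ξ ‖Fh c ξ‖^2 fb b X Psi K (k/3) (X'))`, where
`X = Xf n (u ξ)`, `X' = Xf n (27 hf^b u ξ) ≡ 27 X (b + ·)` modulo one (`StYz` (8), `StPb` (7)); by
Cauchy-Schwarz (`∑_{Icc 3 K} P3 ≤ 1`) the sum over `b` is at most
`√(∑_ξ ‖Fh c ξ‖^2 ∑_b P3 b fb b X Psi K (k/3) X') = √(∑_ξ ‖Fh c ξ‖^2 Psi K (k/3 + 1) X)`.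
Uses `StPb`, `StQs`, `StYz`, `StWc`, `StPl`, `StOb`. -/
def StLb : Prop := ∀ (n e k K : ℕ) (c : ZMod (3 ^ n) → ℝ) (u : ZMod (3 ^ n)), e ≤ n →
  ∑ s ∈ range (K + 1), O1 n e (Rn n k s c u) ≤
    Real.sqrt (∑ ξ ∈ univ.filter (fun ξ : ZMod (3 ^ n) => 3 ^ e * ξ ≠ 0),
      ‖Fh n c ξ‖ ^ 2 * Psi K (k / 3) (Xf n (u * ξ)))

/-- **Co** (collisions).  Proof: (1) induction on the length from the end: `cc (a ++ [x])` is
`2 cc a` for `x = false` and `2 cc a + 3^(hd a)` (odd) for `x = true`.  (2) if `l, l'` of length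
`t` with `k` heads have `cc < 3^n` and equal `Yz`, then `cc l ≡ cc l'` modulo `3^n` (`hf` is a
unit, `StYz` (1)), so `cc l = cc l'` and `l = l'`; hence `cg ≤ 1/2^t`, and `∑ cg ≤ q t k`
(`card_hd`). -/
def StCo : Prop :=
  (∀ l l' : List Bool, l.length = l'.length → hd l = hd l' → cc l = cc l' → l = l') ∧
  (∀ n k t : ℕ, ∑ r, cg n k t r ^ 2 ≤ q t k / 2 ^ t) ∧
  (∀ n k t : ℕ, ∑ r, |cg n k t r| ≤ q t k)

/-- **Fa** (large values are rare).  Proof: let `E t = (∑_{l ∈ W t} √(cc l / 2^t)) / 2^t`.  By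
`sum_W_succ`, `cc (false :: l)/2^(t+1) = (cc l/2^t)/2`, `cc (true :: l)/2^(t+1) = 1/2 + (3/2)
cc l/2^t`, and `√(a+b) ≤ √a + √b`: `E (t+1) ≤ ((√(1/2) + √(3/2))/2) E t + √(1/2)/2 ≤ 0.966 E t +
0.3536`, `E 0 = 0`, so `E t ≤ 11`.  The words with `3^n ≤ cc l` have
`1 ≤ √(cc l/2^t) √(2^t/3^n)`. -/
def StFa : Prop := ∀ n t : ℕ,
  (((W t).filter (fun l => 3 ^ n ≤ cc l)).card : ℝ) / 2 ^ t ≤ 11 * Real.sqrt (2 ^ t / 3 ^ n)

/-- **De** (decomposition after the first `t` letters of the list).  Proof: `sum_W_append` with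
`s = t + (s - t)`: a word of length `s` is `a ++ b`, `|a| = t`, `|b| = s - t ≥ 1`; it ends in a
head iff `b` does (`te_append`); put `k = hd a`, then `hd b = n - k ≥ 1` so `k < n`;
`Yz (a ++ b) = Yz a + 3^k hf^t Yz b` (`StYz` (2)); so for fixed `b` the number of `a` is
`2^t ct n k t (r - 3^k hf^t Yz b)`. -/
def StDe : Prop := ∀ (n t s : ℕ) (r : ZMod (3 ^ n)), t < s →
  sz n n s r = ∑ k ∈ range n, Rn n (n - k) (s - t) (ct n k t) (3 ^ k * hf n ^ t) r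

/-- **Cn** (back to residues of `M`).  Proof: `M ↦ -M` is a bijection from `range (3^n)` to
`ZMod (3^n)`.  `3^n ∣ 2^s M + cc l ↔ Yz n l = -M` (multiply by `hf^s`), so `ns n n s M =
sz n n s (-M)`.  `3^e ∣ 2^s M + cc l` iff `Yz n l + M` is a multiple of `3^e` in `ZMod (3^n)`, iff
`Yz n l = -M + 3^e j` for exactly one `j < 3^(n-e)`; so `ns e n s M = ∑_j sz n n s (-M + 3^e j)`.
(2) each word has one residue, `card_hd_te`.  Uses `StYz`. -/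
def StCn : Prop :=
  (∀ n e s, e ≤ n →
    ∑ M ∈ range (3 ^ n), |ns n n s M - ns e n s M / 3 ^ (n - e)| = O1 n e (sz n n s)) ∧
  (∀ n s, ∑ r, |sz n n s r| = qs n s)

/-- **Ho** (Hoeffding).  Proof: for `λ = 2D/t ≥ 0`, `∑_k q t k e^(λ(2k-t)) = (cosh λ)^t ≤
e^(tλ²/2)` (binomial theorem, `Real.cosh_le_exp_half_sq`), so the sum over `2k - t ≥ 2D` is at
most `e^(tλ²/2 - 2λD) = e^(-2D²/t)`; same for `2k - t ≤ -2D` with `-λ`. -/
def StHo : Prop := ∀ (t : ℕ) (D : ℝ), 1 ≤ t → 0 ≤ D →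
  ∑ k ∈ (range (t + 1)).filter (fun k : ℕ => D ≤ |(k : ℝ) - t / 2|), q t k ≤
    2 * Real.exp (-(2 * D ^ 2 / t))

/-- **Sq** (entropy cost).  Proof: with `w k = 1 + (k - t/2)²/t`, Cauchy-Schwarz:
`∑ √(q t k) ≤ √(∑ q t k w k) √(∑ 1/w k)`.  `∑ q t k (k - t/2)² = t/4` (variance of the binomial
law), so the first factor is `√(5/4)`.  `∑_{k ≤ t} 1/w k`: the at most `2√t + 1` values with
`|k - t/2| ≤ √t` give at most `2√t + 1`, for the others `1/w k ≤ t/(k-t/2)²` and the sum is at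
most `2 t (1/√t + 1/t) ≤ 2√t + 2`; or simply compare with an integral; total `≤ 8 √t`.
(A cruder way: for `j ≥ 0` the number of `k` with `j√t ≤ |k - t/2| < (j+1)√t` is at most
`2√t + 2 ≤ 4√t`, and `1/w k ≤ 1/(1+j²)` there.) -/
def StSq : Prop := ∃ C : ℝ, 0 < C ∧ ∀ t : ℕ, 1 ≤ t →
  ∑ k ∈ range (t + 1), Real.sqrt (q t k) ≤ C * (t : ℝ) ^ (1 / 4 : ℝ)

/-- **Or** (order).  Proof: `n'` minimal with `3^n' x = 0` (exists, `3^n = 0`).  If `n' = 0`,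
`x = 0`, `Xf = 0 = 1/3^0 + (-1)`.  Otherwise `v = val (x hf^a)` satisfies `3^n ∣ 3^n' v` and not
`3^n ∣ 3^(n'-1) v` (`hf` is a unit), so `v = 3^(n-n') c` with `3 ∤ c`, `Xf n x a = c/3^n'`.  The
halving relation is `StYz` (10). -/
def StOr : Prop := ∀ (n : ℕ) (x : ZMod (3 ^ n)), ∃ n' ≤ n, Cls n' (Xf n x) ∧ 3 ^ n' * x = 0 ∧
  ∀ e < n', 3 ^ e * x ≠ 0

/-- **Oh** (decomposition of the sum over `s`).  Proof: (1) `s ≤ t`: `O1 (sz n n s) ≤ 2 qs n s`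
(`StOb` (6), `StCn` (2)).  `s > t`: `StDe`, `StOb`, `ct = cg + cr`, `Rn` is linear in `c`, where
`cr k ≥ 0` counts the words with `3^n ≤ cc l`: `O1 (Rn n k' s' (cr k) u) ≤ 2 qs k' s' ∑ cr k`, the sum
over `s'` of `qs k' s'` is at most `1` and `∑_k ∑_r cr k r ≤ card / 2^t`.  (`s' = s - t` runs
over a subset of `range (K+1)`.)  (2) `StOb` (6),(7), `StCo` (3), `StQs`. -/
def StOh : Prop :=
  (∀ n e t K : ℕ, e ≤ n → ∑ s ∈ range K, O1 n e (sz n n s) ≤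
    2 * ∑ s ∈ range (t + 1), qs n s +
    ∑ k ∈ range n, ∑ s ∈ range (K + 1), O1 n e (Rn n (n - k) s (cg n k t) (3 ^ k * hf n ^ t)) +
    2 * ((((W t).filter (fun l => 3 ^ n ≤ cc l)).card : ℝ) / 2 ^ t)) ∧
  (∀ (n e t k K : ℕ) (u : ZMod (3 ^ n)),
    ∑ s ∈ range (K + 1), O1 n e (Rn n (n - k) s (cg n k t) u) ≤ 2 * q t k)

/-- **Og** (the good terms).  Proof: by `StLb` the left side is at most
`√(∑_{3^e ξ ≠ 0} ‖Fh cg ξ‖² Psi K ((n-k)/3) (Xf n (3^k hf^t ξ)))`.  Let `x = 3^k hf^t ξ`, `n'`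
its order (`StOr`).  As `3^(e-k) 3^k ξ ≠ 0` and `hf` is a unit, `3^(e-k) x ≠ 0`, so `n' > e - k`;
`3^(n-k) x = 0`, so `n' ≤ n - k`.  `Psi` decreases in the number of blocks (`StPb` (5)), so
`Psi K ((n-k)/3) ≤ Psi K (n'/3) ≤ C (n'/3 + 1)^(-13/25)` (`StF`), and `n'/3 + 1 ≥ (e-k)/3 ≥ n/75`.
Then Parseval (`StPl` (1)) and `StCo` (2): `∑ ‖Fh cg ξ‖² = 3^n ∑ cg² ≤ 3^n q t k/2^t`.
Uses `StPb`, `StF`, `StYz`, `StLb`, `StOr`, `StPl`, `StCo`. -/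
def StOg : Prop := ∃ C : ℝ, 0 < C ∧ ∀ n e t k K : ℕ, 1 ≤ n → e ≤ n → k ≤ e → n ≤ 25 * (e - k) →
  ∑ s ∈ range (K + 1), O1 n e (Rn n (n - k) s (cg n k t) (3 ^ k * hf n ^ t)) ≤
    C * (n : ℝ) ^ (-(13 / 50) : ℝ) * Real.sqrt (3 ^ n / 2 ^ t * q t k)

/-- **On** (one step).  Proof: by `StCn` (1) the left side is `∑_{s<K} O1 n e (sz n n s)`.  Choose
`t` with `2^t ≤ 3^n / n^(1/100) < 2^(t+1)`; `1 ≤ t ≤ (317/200) n` (`3^200 < 2^317`).  `StOh` (1):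
* `∑_{s ≤ t} qs n s ≤ (5/4)^t (2/3)^n ≤ (19/20)^n` (`StGen` with `z = 4/5`);
* `StFa`: the last term is `≤ 22 √(2^t/3^n) ≤ 22 n^(-1/200)`;
* `k` with `|k - t/2| ≥ n/100`: at most `2 ∑ q t k ≤ 4 exp (-2 (n/100)²/t) ≤ 4 exp (-n/8000)`
  (`StOh` (2), `StHo`, `q t k = 0` for `k > t`);
* the other `k`: `k ≤ (317/400 + 1/100) n`, `e ≥ (17/20) n`, so `25 (e - k) ≥ n`; `StOg` gives
  `C n^(-13/50) √(3^n/2^t) ∑_k √(q t k)`, `3^n/2^t < 2 n^(1/100)`, and by `StSq` the sum is at most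
  `C t^(1/4) ≤ C' n^(1/4)`: total `C'' n^(-13/50 + 1/200 + 1/4) = C'' n^(-1/200)`.
The exponential terms are `≤ C n^(-1/200)` too (e.g. `x ≤ exp x`).
Uses `StCn`, `StOh`, `StOg`, `StFa`, `StHo`, `StSq`, `StGen`, `StNs`. -/
def StOn : Prop := ∃ C : ℝ, 0 < C ∧ ∀ n e K : ℕ, 1 ≤ n → e ≤ n → 17 * n ≤ 20 * e →
  ∑ s ∈ range K, ∑ M ∈ range (3 ^ n), |ns n n s M - ns e n s M / 3 ^ (n - e)| ≤
    C * (n : ℝ) ^ (-(1 / 200) : ℝ)

/-- **Tw** (transitivity).  Proof: `|ns n n s M - ns m n s M/3^(n-m)| ≤ |ns n n s M -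
ns e n s M/3^(n-e)| + |ns e n s M - ns m n s M/3^(e-m)|/3^(n-e)`; the second term has period `3^e`
in `M` (`StNs`), so by `StPe` (1) its sum over `M < 3^n` is
`∑_{M<3^e} |ns e n s M - ns m n s M/3^(e-m)|`; by `StSp` (both with split at `e`)
this is at most `∑_{s' ≤ s} qs (n-e) (s-s') ∑_{M<3^e} |ns e e s' M - ns m e s' M/3^(e-m)|`, and the
sum over `s < K` of `qs (n-e) (s-s')` is at most `1` (`StQs` (1)). -/
def StTw : Prop := ∀ m e n K : ℕ, m ≤ e → e ≤ n →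
  ∑ s ∈ range K, ∑ M ∈ range (3 ^ n), |ns n n s M - ns m n s M / 3 ^ (n - m)| ≤
    ∑ s ∈ range K, ∑ M ∈ range (3 ^ n), |ns n n s M - ns e n s M / 3 ^ (n - e)| +
    ∑ s ∈ range K, ∑ M ∈ range (3 ^ e), |ns e e s M - ns m e s M / 3 ^ (e - m)|

/-- **Ch** (chain).  Proof: let `L n m` be the left side (for all `K`), `a = 1/200`, `C0` from
`StOn`.  Always `L n m ≤ 2` (`StNs` (4), `StPe` (1): the second sum over `M` is `qs n s` too;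
`StQs`).  Claim: `L n m ≤ C3 m^(-a) - C4 n^(-a)` with `C4 = C0/κ`, `κ = (10/9)^a - 1 > 0`,
`C3 = C4 + C0 + 2 * 20^a`.  Strong induction on `n`.
* `17 n ≤ 20 m`: `L n m ≤ C0 n^(-a) ≤ (C3 - C4) m^(-a)` and `n^(-a) ≤ m^(-a)`.
* `n < 20`: `L ≤ 2 ≤ (C3 - C4) m^(-a)`, same.
* otherwise `m < e := ⌈17 n/20⌉ ≤ 17n/20 + 1 ≤ 9 n/10`: `StTw`, `StOn` and the induction
  hypothesis: `L n m ≤ C0 n^(-a) + C3 m^(-a) - C4 e^(-a)` and `e^(-a) ≥ (10/9)^a n^(-a)`, so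
  `C4 (e^(-a) - n^(-a)) ≥ C0 n^(-a)`.
Uses `StOn`, `StTw`, `StNs`, `StPe`, `StQs`. -/
def StCh : Prop := ∃ C : ℝ, 0 < C ∧ ∀ m n K : ℕ, 1 ≤ m → m ≤ n →
  ∑ s ∈ range K, ∑ M ∈ range (3 ^ n), |ns n n s M - ns m n s M / 3 ^ (n - m)| ≤
    C * (m : ℝ) ^ (-(1 / 200) : ℝ)

/-- **Tv** (total variation under a shift by one).  Proof: for `s ≥ n`, `qs n (s+1) / qs n s =
s / (2 (s - n + 1))` is `≥ 1` iff `s ≤ 2n - 2`; so `qs n` increases up to `s = 2n - 1` and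
decreases afterwards, the sum is at most `2 max = 2 C(2n-2, n-1)/2^(2n-1) =
C(2n-2, n-1)/4^(n-1) ≤ 1/√(2n-1)`, by `C(2m,m)² (2m+1) ≤ 16^m` (induction:
`4 (2m+1)(2m+3) ≤ 16 (m+1)²`). -/
def StTv : Prop := ∃ C : ℝ, 0 < C ∧ ∀ n K : ℕ, 1 ≤ n →
  ∑ s ∈ range K, |qs n (s + 1) - qs n s| ≤ C / Real.sqrt n

/-- **In** (the first `m` heads and the total time are nearly independent).  Proof: let
`w j = qs (n-m) j`, `w_i s = w (s-i)` for `i ≤ s` and `0` for `i > s`; `L = 8m`.  By `StSp`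
(`e = m`) `ns m n s M = ∑_{i ≤ s} ns m m i M w_i s`, and `pim m M = ∑_{i ≤ L} ns m m i M`.  So
`|ns m n s M - qs n s pim m M| ≤ ∑_{i ≤ L} ns m m i M |w_i s - qs n s| +
∑_{L < i ≤ s} ns m m i M w_i s`.  Sum over `M` (`StNs` (4)) and `s < K`: the second part is at most
`∑_{L<i<K} qs m i ≤ 8^(-m)` (`StQs`).  First part: `qs n s = ∑_{j ≤ s} qs m j w_j s` (`StCv`), so
`|w_i s - qs n s| ≤ w_i s (1 - ∑_{j ≤ L} qs m j) + ∑_{j ≤ L} qs m j |w_i s - w_j s| +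
∑_{L < j ≤ s} qs m j w_j s`; the sum over `s` is at most `8^(-m) + 8m · TV + 8^(-m)`, where
`∑_s |w_i s - w_j s| ≤ |i - j| ∑_s |w (s+1) - w s| ≤ 8m C/√(n-m)` (`w 0 = 0` as `n > m`; shift one
by one) and `√(n-m) ≥ √n/2`.  Multiply by `∑_i qs m i ≤ 1`.
Uses `StSp`, `StCv`, `StNs`, `StQs`, `StTv`. -/
def StIn : Prop := ∃ C : ℝ, 0 < C ∧ ∀ m n K : ℕ, 1 ≤ m → 8 * m < n →
  ∑ s ∈ range K, ∑ M ∈ range (3 ^ m), |ns m n s M - qs n s * pim m M| ≤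
    C * m / Real.sqrt n + 4 / 8 ^ m

/-- **Mi** (mixing).  Proof: (1) `Del m k t ≤ q t k + q t k ∑_{M<3^k} pim m M/3^(k-m) ≤ 2 q t k`
(`StNs`, `StPe` (1)) and `StQs` (2).  (2) By `StTr`, `Del m k t ≤ ∑_{s ≤ t} 2^(-(t-s)) A s`,
`A s = ∑_{M<3^k} |ns k k s M - qs k s pim m M/3^(k-m)|`, so `∑_{t<K} Del ≤ 2 ∑_{s<K} A s`, and
`A s ≤ ∑_{M<3^k} |ns k k s M - ns m k s M/3^(k-m)| + ∑_{M<3^m} |ns m k s M - qs k s pim m M|`
(period `3^m`, `StPe` (1)).  `StCh` and `StIn` with `n = k`; `4/8^m ≤ 4 m^(-1/200)`.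
Uses `StTr`, `StNs`, `StPe`, `StQs`, `StCh`, `StIn`. -/
def StMi : Prop :=
  (∀ m k K : ℕ, m ≤ k → ∑ t ∈ range K, Del m k t ≤ 4) ∧
  ∃ C : ℝ, 0 < C ∧ ∀ m k K : ℕ, 1 ≤ m → 8 * m < k →
    ∑ t ∈ range K, Del m k t ≤ C * ((m : ℝ) ^ (-(1 / 200) : ℝ) + m / Real.sqrt k)

end Pool.Agent.Helper76.ND
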