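import Pool.Agent.Helper76.ND.Defs

/-!
# Project ND: basic lemmas on words
-/

set_option autoImplicit false

noncomputable section

namespace Pool.Agent.Helper76.ND

open Finset

/-! ## words -/

@[simp] theorem mem_W {t : ℕ} {l : List Bool} : l ∈ W t ↔ l.length = t := by
  induction t generalizing l with
  | zero => simp [W, List.length_eq_zero_iff]
  | succ t ih =>
    rw [W, mem_union, mem_image, mem_image]
    constructor
    · rintro (⟨a, ha, rfl⟩ | ⟨a, ha, rfl⟩) <;> simp [ih.1 ha]
    · intro h
      match l, h with
      | false :: l', h => left; exact ⟨l', ih.2 (by simpa using h), rfl⟩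
      | true :: l', h => right; exact ⟨l', ih.2 (by simpa using h), rfl⟩

theorem W_disj (t : ℕ) :
    Disjoint ((W t).image (List.cons false)) ((W t).image (List.cons true)) := by
  rw [disjoint_left]
  intro l h1 h2
  rw [mem_image] at h1 h2
  obtain ⟨a, _, rfl⟩ := h1
  obtain ⟨b, _, h⟩ := h2
  simp at h

theorem sum_W_zero {A : Type} [AddCommMonoid A] (F : List Bool → A) : ∑ l ∈ W 0, F l = F [] := by
  rw [W, sum_singleton]

theorem sum_W_succ {A : Type} [AddCommMonoid A] (t : ℕ) (F : List Bool → A) :
    ∑ l ∈ W (t + 1), F l = ∑ l ∈ W t, F (false :: l) + ∑ l ∈ W t, F (true :: l) := by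
  rw [W, sum_union (W_disj t), sum_image, sum_image]
  · intro a _ b _ h; simpa using h
  · intro a _ b _ h; simpa using h

theorem sum_W_append {A : Type} [AddCommMonoid A] (s t : ℕ) (F : List Bool → A) :
    ∑ l ∈ W (s + t), F l = ∑ a ∈ W s, ∑ b ∈ W t, F (a ++ b) := by
  induction s generalizing F with
  | zero => rw [Nat.zero_add, sum_W_zero]; simp
  | succ s ih =>
    rw [show s + 1 + t = (s + t) + 1 by ring, sum_W_succ, sum_W_succ, ih, ih]
    rfl

theorem sum_W_snoc {A : Type} [AddCommMonoid A] (t : ℕ) (F : List Bool → A) :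
    ∑ l ∈ W (t + 1), F l = ∑ l ∈ W t, F (l ++ [false]) + ∑ l ∈ W t, F (l ++ [true]) := by
  rw [sum_W_append, ← sum_add_distrib]
  refine sum_congr rfl fun a _ => ?_
  rw [show (1 : ℕ) = 0 + 1 by rfl, sum_W_succ, sum_W_zero, sum_W_zero]

theorem card_W (t : ℕ) : (W t).card = 2 ^ t := by
  induction t with
  | zero => rfl
  | succ t ih =>
    have := sum_W_succ t (fun _ => (1 : ℕ))
    rw [sum_const, sum_const] at this
    simp only [smul_eq_mul, mul_one] at this
    rw [this, ih]; ring

@[simp] theorem hd_nil : hd [] = 0 := rfl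

@[simp] theorem hd_true (l : List Bool) : hd (true :: l) = hd l + 1 := by simp [hd]

@[simp] theorem hd_false (l : List Bool) : hd (false :: l) = hd l := by simp [hd]

@[simp] theorem hd_append (a b : List Bool) : hd (a ++ b) = hd a + hd b := by simp [hd]

theorem hd_le (l : List Bool) : hd l ≤ l.length := List.count_le_length

@[simp] theorem cc_nil : cc [] = 0 := rfl

@[simp] theorem cc_false (l : List Bool) : cc (false :: l) = cc l := rfl

@[simp] theorem cc_true (l : List Bool) : cc (true :: l) = 2 ^ l.length + 3 * cc l := rfl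

theorem cc_append (a b : List Bool) :
    cc (a ++ b) = 2 ^ b.length * cc a + 3 ^ hd a * cc b := by
  induction a with
  | nil => simp
  | cons x a ih =>
    cases x with
    | false => simp [ih]
    | true =>
      simp only [List.cons_append, cc_true, ih, List.length_append, hd_true]
      ring

theorem cc_le (l : List Bool) : cc l + 2 ^ l.length ≤ 3 ^ l.length := by
  induction l with
  | nil => simp
  | cons x l ih =>
    have h : 2 ^ l.length ≤ 3 ^ l.length := Nat.pow_le_pow_left (by norm_num) _
    cases x with
    | false => simp only [cc_false, List.length_cons, pow_succ]; omega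
    | true => simp only [cc_true, List.length_cons, pow_succ]; omega

@[simp] theorem te_nil : te [] = true := rfl

@[simp] theorem te_snoc (l : List Bool) (b : Bool) : te (l ++ [b]) = b := by
  simp [te]

theorem te_append (a b : List Bool) (hb : b ≠ []) : te (a ++ b) = te b := by
  unfold te
  rw [List.getLast?_append_of_ne_nil _ hb]

theorem te_cons (x : Bool) (l : List Bool) (hl : l ≠ []) : te (x :: l) = te l :=
  te_append [x] l hl

theorem te_true_cons (l : List Bool) : te (true :: l) = te l := by
  cases l with
  | nil => rfl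
  | cons b l => exact te_cons _ _ (by simp)

/-! ## splitting at the first head -/

theorem sum_first {A : Type} [AddCommMonoid A] (s k : ℕ) (F : List Bool → A) :
    ∑ l ∈ (W s).filter (fun l => hd l = k + 1 ∧ te l = true), F l =
      ∑ a ∈ Icc 1 s, ∑ l ∈ (W (s - a)).filter (fun l => hd l = k ∧ te l = true),
        F (List.replicate (a - 1) false ++ true :: l) := by
  induction s generalizing F with
  | zero =>
    rw [sum_filter, sum_W_zero]
    simp
  | succ s ih =>
    rw [sum_filter, sum_W_succ]
    have h1 : ∑ l ∈ W s, (if hd (false :: l) = k + 1 ∧ te (false :: l) = true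
        then F (false :: l) else 0) =
        ∑ l ∈ (W s).filter (fun l => hd l = k + 1 ∧ te l = true), F (false :: l) := by
      rw [sum_filter]
      refine sum_congr rfl fun l _ => ?_
      cases l with
      | nil => simp
      | cons b l => rw [hd_false, te_cons _ _ (by simp)]
    have h2 : ∑ l ∈ W s, (if hd (true :: l) = k + 1 ∧ te (true :: l) = true
        then F (true :: l) else 0) =
        ∑ l ∈ (W s).filter (fun l => hd l = k ∧ te l = true), F (true :: l) := by
      rw [sum_filter]
      refine sum_congr rfl fun l _ => ?_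
      rw [hd_true, te_true_cons]
      simp
    rw [h1, h2, ih, add_comm]
    have h3 : Icc 1 (s + 1) = insert 1 (Icc 2 (s + 1)) := by
      ext x; simp only [mem_Icc, mem_insert]; omega
    rw [h3, sum_insert (by simp)]
    congr 1
    have h4 : Icc 2 (s + 1) = (Icc 1 s).image (· + 1) := by
      ext x
      simp only [mem_Icc, mem_image]
      constructor
      · intro h; exact ⟨x - 1, by omega, by omega⟩
      · rintro ⟨y, h, rfl⟩; omega
    rw [h4, sum_image (by intro a _ b _ h; simpa using h)]
    refine sum_congr rfl fun a ha => ?_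
    rw [mem_Icc] at ha
    have h5 : s + 1 - (a + 1) = s - a := by omega
    have h6 : a + 1 - 1 = (a - 1) + 1 := by omega
    rw [h5, h6, List.replicate_succ]
    rfl

theorem cc_rep (a : ℕ) (l : List Bool) : cc (List.replicate a false ++ l) = cc l := by
  induction a with
  | zero => simp
  | succ a ih => rw [List.replicate_succ, List.cons_append, cc_false, ih]

/-! ## counting -/

theorem card_hd (t k : ℕ) : ((W t).filter (fun l => hd l = k)).card = t.choose k := by
  induction t generalizing k with
  | zero => cases k <;> simp [W, filter_singleton]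
  | succ t ih =>
    rw [card_filter, sum_W_succ]
    simp only [hd_false, hd_true]
    rw [← card_filter, ih, ← card_filter]
    cases k with
    | zero => simp
    | succ k =>
      have : (W t).filter (fun l => hd l + 1 = k + 1) = (W t).filter (fun l => hd l = k) := by
        ext l; simp
      rw [this, ih, Nat.choose_succ_succ]; ring

theorem card_hd_te (n s : ℕ) :
    (((W s).filter (fun l => hd l = n ∧ te l = true)).card : ℝ) / 2 ^ s = qs n s := by
  cases s with
  | zero =>
    cases n with
    | zero => simp [W, qs, filter_singleton]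
    | succ n => simp [W, qs, filter_singleton]
  | succ s =>
    have h : (((W (s + 1)).filter (fun l => hd l = n ∧ te l = true)).card) =
        ((W s).filter (fun l => hd l + 1 = n)).card := by
      rw [card_filter, sum_W_snoc]
      simp only [te_snoc, hd_append]
      simp only [show hd [false] = 0 by rfl, show hd [true] = 1 by rfl]
      rw [card_filter]
      simp
    rw [h]
    cases n with
    | zero => simp [qs]
    | succ n =>
      have : (W s).filter (fun l => hd l + 1 = n + 1) = (W s).filter (fun l => hd l = n) := by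
        ext l; simp
      rw [this, card_hd]; rfl

theorem qs_nonneg (n s : ℕ) : 0 ≤ qs n s := by
  rw [← card_hd_te]; positivity

theorem q_nonneg (t k : ℕ) : 0 ≤ q t k := by unfold q; positivity

theorem nt_nonneg (k t M : ℕ) : 0 ≤ nt k t M := by unfold nt; positivity

theorem ns_nonneg (e n s M : ℕ) : 0 ≤ ns e n s M := by unfold ns; positivity

theorem pim_nonneg (m M : ℕ) : 0 ≤ pim m M := sum_nonneg fun _ _ => ns_nonneg _ _ _ _

theorem Del_nonneg (m k t : ℕ) : 0 ≤ Del m k t := sum_nonneg fun _ _ => abs_nonneg _

theorem P3_nonneg (b : ℕ) : 0 ≤ P3 b := by unfold P3; positivity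

theorem fb_nonneg (b : ℕ) (X : ℕ → ℝ) : 0 ≤ fb b X := by unfold fb; positivity

theorem S_pos {n : ℕ} (h : 1 ≤ n) : 1 ≤ S n := by unfold S; split_ifs <;> omega

theorem S_iter_pos {n : ℕ} (h : 1 ≤ n) (t : ℕ) : 1 ≤ S^[t] n := by
  induction t with
  | zero => simpa using h
  | succ t ih => rw [Function.iterate_succ_apply']; exact S_pos ih

@[simp] theorem wd_length (t N : ℕ) : (wd t N).length = t := by
  induction t with
  | zero => rfl
  | succ t ih => simp [wd, ih]

theorem wd_mem (t N : ℕ) : wd t N ∈ W t := by simp

/-! ## `e(x)` -/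

theorem norm_ev (x : ℝ) : ‖ev x‖ = 1 := by
  unfold ev
  rw [show 2 * (Real.pi : ℂ) * (x : ℂ) * Complex.I = ((2 * Real.pi * x : ℝ) : ℂ) * Complex.I by
    push_cast; ring, Complex.norm_exp_ofReal_mul_I]

theorem ev_add (x y : ℝ) : ev (x + y) = ev x * ev y := by
  unfold ev; rw [← Complex.exp_add]; congr 1; push_cast; ring

theorem ev_zero : ev 0 = 1 := by simp [ev]

theorem ev_int (m : ℤ) : ev m = 1 := by
  unfold ev
  rw [Complex.exp_eq_one_iff]
  exact ⟨m, by push_cast; ring⟩

theorem ev_add_int (x : ℝ) (m : ℤ) : ev (x + m) = ev x := by rw [ev_add, ev_int, mul_one]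

theorem ev_half : ev (1 / 2) = -1 := by
  unfold ev
  rw [show 2 * (Real.pi : ℂ) * ((1 / 2 : ℝ) : ℂ) * Complex.I = Real.pi * Complex.I by
    push_cast; ring, Complex.exp_pi_mul_I]

theorem norm_ev_sub_one_le (x : ℝ) : ‖ev x - 1‖ ≤ 2 * Real.pi * |x| := by
  unfold ev
  rw [show 2 * (Real.pi : ℂ) * (x : ℂ) * Complex.I = Complex.I * ((2 * Real.pi * x : ℝ) : ℂ) by
    push_cast; ring]
  refine (Real.norm_exp_I_mul_ofReal_sub_one_le).trans ?_
  rw [Real.norm_eq_abs, abs_mul, abs_of_pos (by positivity)]

theorem norm_ev_sub_le (x y : ℝ) : ‖ev x - ev y‖ ≤ 2 * Real.pi * |x - y| := by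
  have h : ev x - ev y = ev y * (ev (x - y) - 1) := by
    rw [mul_sub, ← ev_add, mul_one]; congr 2; ring
  rw [h, norm_mul, norm_ev, one_mul]
  exact norm_ev_sub_one_le _

end Pool.Agent.Helper76.ND
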