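import Mathlib

/-!
# Project ND (MP_77ff3d_nt): definitions

Natural density version of Tao's theorem for the `3x - 1` map.
-/

set_option autoImplicit false

noncomputable section

namespace Pool.Agent.Helper76.ND

open Finset

/-! ## Maps and words -/

/-- the map of the problem -/
def T (n : ℕ) : ℕ := if n % 2 = 0 then n / 2 else 3 * n - 1

/-- the shortcut map -/
def S (n : ℕ) : ℕ := if n % 2 = 0 then n / 2 else (3 * n - 1) / 2

/-- all words of length `t` -/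
def W : ℕ → Finset (List Bool)
  | 0 => {[]}
  | t + 1 => (W t).image (List.cons false) ∪ (W t).image (List.cons true)

/-- number of letters `true` (odd steps) -/
def hd (l : List Bool) : ℕ := l.count true

/-- the integer `2 ^ |l| * Y_l` -/
def cc : List Bool → ℕ
  | [] => 0
  | false :: l => cc l
  | true :: l => 2 ^ l.length + 3 * cc l

/-- the last letter is `true`, or the word is empty -/
def te (l : List Bool) : Bool := l.getLast?.getD true

/-- backward parity word of `N`: the first letter is the parity of `S^[t-1] N`, the last one the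
parity of `N` -/
def wd : ℕ → ℕ → List Bool
  | 0, _ => []
  | t + 1, N => decide (S^[t] N % 2 = 1) :: wd t N

/-! ## Laws -/

/-- binomial law -/
def q (t k : ℕ) : ℝ := (t.choose k : ℝ) / 2 ^ t

/-- law of the sum of `n` geometric variables: probability that the `n`-th head comes at time `s` -/
def qs : ℕ → ℕ → ℝ
  | 0, 0 => 1
  | 0, _ + 1 => 0
  | _ + 1, 0 => 0
  | n + 1, s + 1 => (s.choose n : ℝ) / 2 ^ (s + 1)

/-- words of length `t` with `k` heads and `3 ^ k ∣ 2 ^ t * M + cc l` -/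
def nt (k t M : ℕ) : ℝ :=
  (((W t).filter (fun l => hd l = k ∧ 3 ^ k ∣ 2 ^ t * M + cc l)).card : ℝ) / 2 ^ t

/-- words of length `s` with `n` heads, the last letter a head, and `3 ^ e ∣ 2 ^ s * M + cc l` -/
def ns (e n s M : ℕ) : ℝ :=
  (((W s).filter (fun l => hd l = n ∧ te l = true ∧ 3 ^ e ∣ 2 ^ s * M + cc l)).card : ℝ) / 2 ^ s

/-- the limit law modulo `3 ^ m` -/
def pim (m M : ℕ) : ℝ := ∑ s ∈ range (8 * m + 1), ns m m s M

/-- mixing error at `(t, k)` -/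
def Del (m k t : ℕ) : ℝ :=
  ∑ M ∈ range (3 ^ k), |nt k t M - q t k * pim m M / 3 ^ (k - m)|

/-! ## Fourier side -/

/-- `e(x)` -/
def ev (x : ℝ) : ℂ := Complex.exp (2 * Real.pi * x * Complex.I)

/-- squared modulus of the mean over two free heads inside a block of length `b` -/
def fb (b : ℕ) (X : ℕ → ℝ) : ℝ :=
  ‖∑ p ∈ Icc 1 (b - 1), ∑ r ∈ Icc (p + 1) (b - 1), ev (X p + 3 * X r)‖ ^ 2 /
    ((b - 1).choose 2 : ℝ) ^ 2

/-- probability that three geometric variables have sum `b` -/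
def P3 (b : ℕ) : ℝ := ((b - 1).choose 2 : ℝ) / 2 ^ b

/-- the state after `j` blocks of total length `B` -/
def sh (j B : ℕ) (X : ℕ → ℝ) : ℕ → ℝ := fun a => 27 ^ j * X (B + a)

/-- mean of the product of `fb` over `k` blocks (all blocks of length at most `K`) -/
def Psi (K : ℕ) : ℕ → (ℕ → ℝ) → ℝ
  | 0, _ => 1
  | k + 1, X => ∑ b ∈ Icc 3 K, P3 b * fb b X * Psi K k (fun a => 27 * X (b + a))

/-- halving sequences of denominator exactly `3 ^ n` modulo one -/
def Cls (n : ℕ) (X : ℕ → ℝ) : Prop :=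
  ∀ j, (∃ c m : ℤ, ¬ (3 ∣ c) ∧ X j = c / 3 ^ n + m) ∧ ∃ m : ℤ, 2 * X (j + 1) = X j + m

/-- inverse of two -/
def hf (n : ℕ) : ZMod (3 ^ n) := (2 : ZMod (3 ^ n))⁻¹

/-- the residue of `Y_l` -/
def Yz (n : ℕ) (l : List Bool) : ZMod (3 ^ n) := (cc l : ZMod (3 ^ n)) * hf n ^ l.length

/-- additive character -/
def chi (n : ℕ) (x : ZMod (3 ^ n)) : ℂ := ev ((x.val : ℝ) / 3 ^ n)

/-- Fourier transform -/
def Fh (n : ℕ) (c : ZMod (3 ^ n) → ℝ) (ξ : ZMod (3 ^ n)) : ℂ := ∑ r, (c r : ℂ) * chi n (ξ * r)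

/-- `L^1` norm of the deviation of `c` from its means over the classes modulo `3 ^ e` -/
def O1 (n e : ℕ) (c : ZMod (3 ^ n) → ℝ) : ℝ :=
  ∑ r, |c r - (∑ j ∈ range (3 ^ (n - e)), c (r + 3 ^ e * (j : ZMod (3 ^ n)))) / 3 ^ (n - e)|

/-- the function `c` spread by the words of length `s` with `k` heads ending in a head -/
def Rn (n k s : ℕ) (c : ZMod (3 ^ n) → ℝ) (u : ZMod (3 ^ n)) : ZMod (3 ^ n) → ℝ :=
  fun r => (∑ l ∈ (W s).filter (fun l => hd l = k ∧ te l = true), c (r - u * Yz n l)) / 2 ^ s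

/-- law of the residue of words of length `t` with `k` heads -/
def ct (n k t : ℕ) (r : ZMod (3 ^ n)) : ℝ :=
  (((W t).filter (fun l => hd l = k ∧ Yz n l = r)).card : ℝ) / 2 ^ t

/-- law of the residue of words of length `t` with `k` heads and `cc l < 3 ^ n` -/
def cg (n k t : ℕ) (r : ZMod (3 ^ n)) : ℝ :=
  (((W t).filter (fun l => hd l = k ∧ cc l < 3 ^ n ∧ Yz n l = r)).card : ℝ) / 2 ^ t

/-- mean of the translates of `c` by the contribution of a block of length `b` with three heads -/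
def cb (n b : ℕ) (c : ZMod (3 ^ n) → ℝ) (u : ZMod (3 ^ n)) : ZMod (3 ^ n) → ℝ :=
  fun r => (∑ p ∈ Icc 1 (b - 1), ∑ r' ∈ Icc (p + 1) (b - 1),
    c (r - u * (hf n ^ p + 3 * hf n ^ r' + 9 * hf n ^ b))) / ((b - 1).choose 2 : ℝ)

/-- law of the residue of words of length `s` with `N` heads ending in a head -/
def sz (n N s : ℕ) (r : ZMod (3 ^ n)) : ℝ :=
  (((W s).filter (fun l => hd l = N ∧ te l = true ∧ Yz n l = r)).card : ℝ) / 2 ^ s

/-- halving sequence of `x` -/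
def Xf (n : ℕ) (x : ZMod (3 ^ n)) : ℕ → ℝ := fun a => ((x * hf n ^ a).val : ℝ) / 3 ^ n

/-- ideal landing sequence -/
def Xi (σ : ℤ) (b o : ℕ) : ℕ → ℝ := fun p => (σ : ℝ) * 2 ^ ((b : ℤ) - o - 1 - p)

/-! ## Potential theory -/

/-- density of the initial measure -/
def gg (v : ℝ) : ℝ :=
  if v ≤ 1 / 2 then 0 else if v ≤ 1 then 1 / (2 * v) - 1 / (4 * v ^ 2)
  else if v ≤ 3 / 2 then 3 / (4 * v ^ 2) - 1 / (2 * v) else 0

/-- the potential -/
def phi (v : ℝ) : ℝ := min 1 (1 / v)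

/-- initial measure at scale `y` -/
def mu (y : ℝ) (N : ℕ) : ℝ := gg (N / y) / y

/-- integral of `f` -/
def II (y : ℝ) (f : ℕ → ℝ) : ℝ := ∑ N ∈ Icc 1 ⌊2 * y⌋₊, mu y N * f N

/-- `f` is invariant above `B` -/
def Inv (B : ℕ) (f : ℕ → ℝ) : Prop := ∀ N, B < N → f (S N) = f N

/-- half of `log (4/3)`: the drift -/
def rho : ℝ := Real.log (4 / 3) / 2

/-- left end of the window -/
def zl (x : ℝ) : ℝ := x ^ (103 / 100 : ℝ)

/-- right end of the window -/
def zr (x : ℝ) : ℝ := x ^ (104 / 100 : ℝ)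

/-- `y` is in the range of `x` -/
def YR (x y : ℝ) : Prop := x ^ (105 / 100 : ℝ) ≤ y ∧ y ≤ x ^ (106 / 100 : ℝ)

/-- number of steps -/
def t1 (x y : ℝ) : ℕ := ⌊(Real.log y - 101 / 100 * Real.log x) / rho⌋₊

/-- window function -/
def kap (x : ℝ) (M : ℕ) : ℝ :=
  if zl x ≤ M ∧ (M : ℝ) ≤ zr x then rho / (Real.log x / 100) else 0

/-- the word is good: every suffix has nearly as many heads as half its length -/
def Gd (D : ℝ) (l : List Bool) : Prop :=
  ∀ j ≤ l.length, |(hd (l.drop (l.length - j)) : ℝ) - j / 2| ≤ D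

/-- first form of the sum over the window (exact preimages) -/
def Aw (x y : ℝ) (f : ℕ → ℝ) : ℝ :=
  ∑ t ∈ range (t1 x y + 1), ∑ M ∈ Icc 1 ⌊zr x⌋₊, kap x M * f M *
    ∑ l ∈ (W t).filter (fun l => 3 ^ hd l ∣ 2 ^ t * M + cc l), mu y ((2 ^ t * M + cc l) / 3 ^ hd l)

/-- second form (the preimages replaced by `2 ^ t M / 3 ^ k`) -/
def Ag (x y : ℝ) (f : ℕ → ℝ) : ℝ :=
  ∑ t ∈ range (t1 x y + 1), ∑ M ∈ Icc 1 ⌊zr x⌋₊, kap x M * f M *
    ∑ l ∈ (W t).filter (fun l => 3 ^ hd l ∣ 2 ^ t * M + cc l),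
      gg (2 ^ t * M / 3 ^ hd l / y) / y

/-- third form (the number of preimages replaced by its mean) -/
def Am (x y : ℝ) (m : ℕ) (f : ℕ → ℝ) : ℝ :=
  ∑ t ∈ range (t1 x y + 1), ∑ M ∈ Icc 1 ⌊zr x⌋₊, kap x M * f M * (3 ^ m * pim m M / M) *
    ∑ k ∈ range (t + 1), q t k * ((2 ^ t * (M / y) / 3 ^ k) * gg (2 ^ t * (M / y) / 3 ^ k))

/-- the limit functional -/
def JJ (x : ℝ) (m : ℕ) (f : ℕ → ℝ) : ℝ :=
  ∑ M ∈ Icc 1 ⌊zr x⌋₊, kap x M * f M * (3 ^ m * pim m M / M)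

open Classical in
/-- indicator of the numbers whose orbit stays above `B` -/
def fB (B : ℕ) (N : ℕ) : ℝ := if ∀ k, B < S^[k] N then 1 else 0

end Pool.Agent.Helper76.ND
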