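import Pool.Agent.Helper76.ND.StC

/-!
# Project ND, module Nu: the landing factor
-/

set_option autoImplicit false

noncomputable section

namespace Pool.Agent.Helper76.ND

open Finset

/-- lower bounds for `10 ^ 4 * cos (pi j / 8)` -/
def cL (j : ℕ) : ℤ :=
  [10000, 9238, 7071, 3826, 0, -3827, -7072, -9239, -10000, -9239, -7072, -3827, 0, 3826, 7071,
    9238].getD j 0

/-- upper bounds for `10 ^ 4 * cos (pi j / 8)` -/
def cH (j : ℕ) : ℤ :=
  [10000, 9239, 7072, 3827, 0, -3826, -7071, -9238, -10000, -9238, -7071, -3826, 0, 3827, 7072,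
    9239].getD j 0

def Jx (s b o p r : ℕ) : ℕ := s * (2 ^ (b + 3 - o - p) + 3 * 2 ^ (b + 3 - o - r)) % 16

def tab (F : ℕ → ℤ) (s b o : ℕ) : ℤ :=
  ∑ p ∈ Icc 1 (b - 1), ∑ r ∈ Icc (p + 1) (b - 1), if r + o ≤ b + 3 then F (Jx s b o p r) else 0

def unk (b o : ℕ) : ℕ :=
  ∑ p ∈ Icc 1 (b - 1), ∑ r ∈ Icc (p + 1) (b - 1), if r + o ≤ b + 3 then 0 else 1

def KT (b o : ℕ) : ℕ :=
  match b with
  | 3 => [10000, 10000, 10000].getD (o - 1) 0
  | 4 => [10000, 10000, 24145, 21012].getD (o - 1) 0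
  | 5 => [0, 14143, 18481, 36459, 51012].getD (o - 1) 0
  | 6 => [20000, 20000, 26135, 30731, 76459, 91012].getD (o - 1) 0
  | 7 => [50000, 36056, 34398, 35583, 80731, 126459, 141012].getD (o - 1) 0
  | 8 => [90000, 64032, 65428, 47202, 95583, 140731, 186459, 201012].getD (o - 1) 0
  | 9 => [140000, 102957, 105044, 86635, 117202, 165583, 210731, 256459, 271012].getD (o - 1) 0
  | 10 => [200000, 152316, 153844, 136839, 166635, 197202, 245583, 290731, 336459,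
      351012].getD (o - 1) 0
  | 11 => [270000, 211897, 212147, 196141, 226839, 256635, 287202, 335583, 380731, 426459,
      441012].getD (o - 1) 0
  | 12 => [350000, 281603, 280131, 264809, 296141, 326839, 356635, 387202, 435583, 480731, 526459,
      541012].getD (o - 1) 0
  | _ => 0

def sq (a b : ℤ) : ℤ := max (a ^ 2) (b ^ 2)

/-- the check -/
def chk (s b o : ℕ) : Bool :=
  decide (KT b o = 10000 * (b - 1).choose 2) ||
  (decide (10000 * unk b o ≤ KT b o) &&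
   decide (sq (tab cL s b o) (tab cH s b o) +
     sq (tab (fun j => cL ((j + 12) % 16)) s b o) (tab (fun j => cH ((j + 12) % 16)) s b o) ≤
      ((KT b o : ℤ) - 10000 * unk b o) ^ 2))

theorem chk_all : ∀ s ∈ ([1, 3, 5, 7, 9, 11, 13, 15] : List ℕ), ∀ b ∈ Icc 3 12, ∀ o ∈ Icc 1 b,
    chk s b o = true := by
  decide +kernel

/-! ### cosines -/

theorem cos_eighth : ∀ j : ℕ, j < 16 →
    (cL j : ℝ) ≤ 10000 * Real.cos (2 * Real.pi * ((j : ℝ) / 16)) ∧
      10000 * Real.cos (2 * Real.pi * ((j : ℝ) / 16)) ≤ cH j := by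
  have h2 : (1.41421356 : ℝ) < Real.sqrt 2 ∧ Real.sqrt 2 < 1.41421357 := by
    constructor
    · exact Real.lt_sqrt_of_sq_lt (by norm_num)
    · rw [Real.sqrt_lt' (by norm_num)]; norm_num
  have hA : (1.8477 : ℝ) < Real.sqrt (2 + Real.sqrt 2) ∧ Real.sqrt (2 + Real.sqrt 2) < 1.8478 := by
    constructor
    · exact Real.lt_sqrt_of_sq_lt (by norm_num; linarith [h2.1])
    · rw [Real.sqrt_lt' (by norm_num)]; norm_num; linarith [h2.2]
  have hB : (0.7653 : ℝ) < Real.sqrt (2 - Real.sqrt 2) ∧ Real.sqrt (2 - Real.sqrt 2) < 0.7654 := by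
    constructor
    · exact Real.lt_sqrt_of_sq_lt (by norm_num; linarith [h2.2])
    · rw [Real.sqrt_lt' (by norm_num)]; norm_num; linarith [h2.1]
  have c0 : Real.cos 0 = 1 := Real.cos_zero
  have c1 := Real.cos_pi_div_eight
  have c2 := Real.cos_pi_div_four
  have c3 : Real.cos (3 * Real.pi / 8) = Real.sqrt (2 - Real.sqrt 2) / 2 := by
    rw [show 3 * Real.pi / 8 = Real.pi / 2 - Real.pi / 8 by ring, Real.cos_pi_div_two_sub,
      Real.sin_pi_div_eight]
  have c4 : Real.cos (Real.pi / 2) = 0 := Real.cos_pi_div_two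
  have key : ∀ x y : ℝ, Real.cos (Real.pi - x) = - Real.cos x := fun x _ => Real.cos_pi_sub x
  have hm : ∀ x : ℝ, Real.cos (2 * Real.pi - x) = Real.cos x := fun x => by
    rw [Real.cos_two_pi_sub]
  intro j hj
  have e0 : Real.cos (2 * Real.pi * ((0 : ℝ) / 16)) = 1 := by rw [← c0]; congr 1; ring
  have e1 : Real.cos (2 * Real.pi * ((1 : ℝ) / 16)) = Real.sqrt (2 + Real.sqrt 2) / 2 := by
    rw [← c1]; congr 1; ring
  have e2 : Real.cos (2 * Real.pi * ((2 : ℝ) / 16)) = Real.sqrt 2 / 2 := by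
    rw [← c2]; congr 1; ring
  have e3 : Real.cos (2 * Real.pi * ((3 : ℝ) / 16)) = Real.sqrt (2 - Real.sqrt 2) / 2 := by
    rw [← c3]; congr 1; ring
  have e4 : Real.cos (2 * Real.pi * ((4 : ℝ) / 16)) = 0 := by rw [← c4]; congr 1; ring
  have e5 : Real.cos (2 * Real.pi * ((5 : ℝ) / 16)) = - (Real.sqrt (2 - Real.sqrt 2) / 2) := by
    rw [← e3, ← Real.cos_pi_sub]; congr 1; ring
  have e6 : Real.cos (2 * Real.pi * ((6 : ℝ) / 16)) = - (Real.sqrt 2 / 2) := by
    rw [← e2, ← Real.cos_pi_sub]; congr 1; ring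
  have e7 : Real.cos (2 * Real.pi * ((7 : ℝ) / 16)) = - (Real.sqrt (2 + Real.sqrt 2) / 2) := by
    rw [← e1, ← Real.cos_pi_sub]; congr 1; ring
  have e8 : Real.cos (2 * Real.pi * ((8 : ℝ) / 16)) = -1 := by
    rw [← e0, ← Real.cos_pi_sub]; congr 1; ring
  have e9 : Real.cos (2 * Real.pi * ((9 : ℝ) / 16)) = - (Real.sqrt (2 + Real.sqrt 2) / 2) := by
    rw [← e7, ← hm]; congr 1; ring
  have e10 : Real.cos (2 * Real.pi * ((10 : ℝ) / 16)) = - (Real.sqrt 2 / 2) := by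
    rw [← e6, ← hm]; congr 1; ring
  have e11 : Real.cos (2 * Real.pi * ((11 : ℝ) / 16)) = - (Real.sqrt (2 - Real.sqrt 2) / 2) := by
    rw [← e5, ← hm]; congr 1; ring
  have e12 : Real.cos (2 * Real.pi * ((12 : ℝ) / 16)) = 0 := by
    rw [← e4, ← hm]; congr 1; ring
  have e13 : Real.cos (2 * Real.pi * ((13 : ℝ) / 16)) = Real.sqrt (2 - Real.sqrt 2) / 2 := by
    rw [← e3, ← hm]; congr 1; ring
  have e14 : Real.cos (2 * Real.pi * ((14 : ℝ) / 16)) = Real.sqrt 2 / 2 := by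
    rw [← e2, ← hm]; congr 1; ring
  have e15 : Real.cos (2 * Real.pi * ((15 : ℝ) / 16)) = Real.sqrt (2 + Real.sqrt 2) / 2 := by
    rw [← e1, ← hm]; congr 1; ring
  obtain ⟨h2a, h2b⟩ := h2
  obtain ⟨hAa, hAb⟩ := hA
  obtain ⟨hBa, hBb⟩ := hB
  interval_cases j <;>
  simp only [cL, cH, List.getD_cons_zero, List.getD_cons_succ, Nat.cast_ofNat, Nat.cast_zero,
    Nat.cast_one, e0, e1, e2, e3, e4, e5, e6, e7, e8, e9, e10, e11, e12, e13, e14, e15] <;>
  (constructor <;> push_cast <;> linarith)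

theorem sin_eighth (j : ℕ) (_hj : j < 16) :
    (cL ((j + 12) % 16) : ℝ) ≤ 10000 * Real.sin (2 * Real.pi * ((j : ℝ) / 16)) ∧
      10000 * Real.sin (2 * Real.pi * ((j : ℝ) / 16)) ≤ cH ((j + 12) % 16) := by
  have h := cos_eighth ((j + 12) % 16) (Nat.mod_lt _ (by norm_num))
  have he : Real.cos (2 * Real.pi * ((((j + 12) % 16 : ℕ) : ℝ) / 16)) =
      Real.sin (2 * Real.pi * ((j : ℝ) / 16)) := by
    have h1 : (((j + 12) % 16 : ℕ) : ℝ) = (j : ℝ) + 12 - 16 * (((j + 12) / 16 : ℕ) : ℝ) := by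
      have := Nat.div_add_mod (j + 12) 16
      have h2 : (16 : ℝ) * (((j + 12) / 16 : ℕ) : ℝ) + (((j + 12) % 16 : ℕ) : ℝ) = (j : ℝ) + 12 := by
        exact_mod_cast this
      linarith
    rw [h1]
    have h3 : 2 * Real.pi * (((j : ℝ) + 12 - 16 * (((j + 12) / 16 : ℕ) : ℝ)) / 16) =
        2 * Real.pi * ((j : ℝ) / 16) - Real.pi / 2 + 2 * Real.pi -
          (((j + 12) / 16 : ℕ) : ℝ) * (2 * Real.pi) := by ring
    rw [h3, Real.cos_sub_nat_mul_two_pi, Real.cos_add_two_pi, Real.cos_sub_pi_div_two]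
  rw [he] at h
  exact h

theorem ev_re (x : ℝ) : (ev x).re = Real.cos (2 * Real.pi * x) := by
  unfold ev
  rw [show 2 * (Real.pi : ℂ) * (x : ℂ) * Complex.I = ((2 * Real.pi * x : ℝ) : ℂ) * Complex.I by
    push_cast; ring, Complex.exp_ofReal_mul_I_re]

theorem ev_im (x : ℝ) : (ev x).im = Real.sin (2 * Real.pi * x) := by
  unfold ev
  rw [show 2 * (Real.pi : ℂ) * (x : ℂ) * Complex.I = ((2 * Real.pi * x : ℝ) : ℂ) * Complex.I by
    push_cast; ring, Complex.exp_ofReal_mul_I_im]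

/-- phases of the known pairs -/
theorem ev_known (σ : ℤ) (s b o p r : ℕ) (hs : ∃ t : ℤ, σ = s + 16 * t) (hpr : p < r)
    (hr : r + o ≤ b + 3) :
    ev (Xi σ b o p + 3 * Xi σ b o r) = ev (((Jx s b o p r : ℕ) : ℝ) / 16) := by
  obtain ⟨t, ht⟩ := hs
  have hX : ∀ a : ℕ, a + o ≤ b + 3 → Xi σ b o a = (σ : ℝ) * 2 ^ (b + 3 - o - a) / 16 := by
    intro a ha
    unfold Xi
    have h1 : ((b : ℤ) - o - 1 - a) = ((b + 3 - o - a : ℕ) : ℤ) - 4 := by omega
    rw [h1, zpow_sub₀ (by norm_num), zpow_natCast]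
    norm_num
    ring
  rw [hX p (by omega), hX r hr]
  set g := 2 ^ (b + 3 - o - p) + 3 * 2 ^ (b + 3 - o - r) with hg
  obtain ⟨Q, hQ⟩ : ∃ Q, Q = s * g / 16 := ⟨_, rfl⟩
  have h2 : (σ : ℝ) * 2 ^ (b + 3 - o - p) / 16 + 3 * ((σ : ℝ) * 2 ^ (b + 3 - o - r) / 16) =
      ((Jx s b o p r : ℕ) : ℝ) / 16 + ((Q : ℤ) + t * (g : ℤ) : ℤ) := by
    have h3 := Nat.div_add_mod (s * g) 16
    rw [← hQ] at h3
    have h4 : (16 : ℝ) * (Q : ℝ) + ((Jx s b o p r : ℕ) : ℝ) = (s : ℝ) * (g : ℝ) := by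
      have : Jx s b o p r = s * g % 16 := rfl
      rw [this]
      exact_mod_cast h3
    have h5 : (g : ℝ) = 2 ^ (b + 3 - o - p) + 3 * 2 ^ (b + 3 - o - r) := by
      rw [hg]; push_cast; ring
    have h6 : (σ : ℝ) = s + 16 * t := by rw [ht]; push_cast; ring
    rw [h6]
    have h7 : ((Jx s b o p r : ℕ) : ℝ) = (s : ℝ) * (g : ℝ) - 16 * (Q : ℝ) := by
      linarith
    rw [h7]
    have h8 : ((s : ℝ) + 16 * t) * 2 ^ (b + 3 - o - p) / 16 +
        3 * (((s : ℝ) + 16 * t) * 2 ^ (b + 3 - o - r) / 16) =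
        ((s : ℝ) + 16 * t) * (g : ℝ) / 16 := by
      rw [h5]; ring
    rw [h8]
    push_cast
    ring
  rw [h2, ev_add_int]

theorem abs_sq_le {x : ℝ} {a b : ℤ} (h1 : (a : ℝ) ≤ x) (h2 : x ≤ b) : x ^ 2 ≤ (sq a b : ℤ) := by
  unfold sq
  rcases le_total 0 x with hx | hx
  · have : x ^ 2 ≤ (b : ℝ) ^ 2 := by nlinarith
    refine this.trans ?_
    exact_mod_cast le_max_right _ _
  · have : x ^ 2 ≤ (a : ℝ) ^ 2 := by nlinarith
    refine this.trans ?_
    exact_mod_cast le_max_left _ _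

theorem norm_known (σ : ℤ) (s b o : ℕ) (hs : ∃ t : ℤ, σ = s + 16 * t) :
    (10000 * ‖∑ p ∈ Icc 1 (b - 1), ∑ r ∈ Icc (p + 1) (b - 1),
      (if r + o ≤ b + 3 then ev (Xi σ b o p + 3 * Xi σ b o r) else 0)‖) ^ 2 ≤
      ((sq (tab cL s b o) (tab cH s b o) +
        sq (tab (fun j => cL ((j + 12) % 16)) s b o) (tab (fun j => cH ((j + 12) % 16)) s b o) : ℤ)
        : ℝ) := by
  set z := ∑ p ∈ Icc 1 (b - 1), ∑ r ∈ Icc (p + 1) (b - 1),
      (if r + o ≤ b + 3 then ev (Xi σ b o p + 3 * Xi σ b o r) else 0) with hz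
  have hre : z.re = ∑ p ∈ Icc 1 (b - 1), ∑ r ∈ Icc (p + 1) (b - 1),
      (if r + o ≤ b + 3 then Real.cos (2 * Real.pi * (((Jx s b o p r : ℕ) : ℝ) / 16)) else 0) := by
    rw [hz, Complex.re_sum]
    refine sum_congr rfl fun p _ => ?_
    rw [Complex.re_sum]
    refine sum_congr rfl fun r hr => ?_
    rw [mem_Icc] at hr
    split_ifs with h
    · rw [ev_known σ s b o p r hs (by omega) h, ev_re]
    · rfl
  have him : z.im = ∑ p ∈ Icc 1 (b - 1), ∑ r ∈ Icc (p + 1) (b - 1),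
      (if r + o ≤ b + 3 then Real.sin (2 * Real.pi * (((Jx s b o p r : ℕ) : ℝ) / 16)) else 0) := by
    rw [hz, Complex.im_sum]
    refine sum_congr rfl fun p _ => ?_
    rw [Complex.im_sum]
    refine sum_congr rfl fun r hr => ?_
    rw [mem_Icc] at hr
    split_ifs with h
    · rw [ev_known σ s b o p r hs (by omega) h, ev_im]
    · rfl
  have hJ : ∀ p r, Jx s b o p r < 16 := fun p r => Nat.mod_lt _ (by norm_num)
  have b1 : ((tab cL s b o : ℤ) : ℝ) ≤ 10000 * z.re := by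
    rw [hre, mul_sum]; unfold tab; push_cast
    refine sum_le_sum fun p _ => ?_
    rw [mul_sum]
    refine sum_le_sum fun r _ => ?_
    split_ifs with h
    · exact (cos_eighth _ (hJ p r)).1
    · simp
  have b2 : 10000 * z.re ≤ ((tab cH s b o : ℤ) : ℝ) := by
    rw [hre, mul_sum]; unfold tab; push_cast
    refine sum_le_sum fun p _ => ?_
    rw [mul_sum]
    refine sum_le_sum fun r _ => ?_
    split_ifs with h
    · exact (cos_eighth _ (hJ p r)).2
    · simp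
  have b3 : ((tab (fun j => cL ((j + 12) % 16)) s b o : ℤ) : ℝ) ≤ 10000 * z.im := by
    rw [him, mul_sum]; unfold tab; push_cast
    refine sum_le_sum fun p _ => ?_
    rw [mul_sum]
    refine sum_le_sum fun r _ => ?_
    split_ifs with h
    · exact (sin_eighth _ (hJ p r)).1
    · simp
  have b4 : 10000 * z.im ≤ ((tab (fun j => cH ((j + 12) % 16)) s b o : ℤ) : ℝ) := by
    rw [him, mul_sum]; unfold tab; push_cast
    refine sum_le_sum fun p _ => ?_
    rw [mul_sum]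
    refine sum_le_sum fun r _ => ?_
    split_ifs with h
    · exact (sin_eighth _ (hJ p r)).2
    · simp
  have h1 := abs_sq_le b1 b2
  have h2 := abs_sq_le b3 b4
  rw [mul_pow, ← Complex.normSq_eq_norm_sq, Complex.normSq_apply]
  push_cast at h1 h2 ⊢
  nlinarith

theorem pairs_card (b : ℕ) (hb : 1 ≤ b) :
    ∑ p ∈ Icc 1 (b - 1), ∑ _r ∈ Icc (p + 1) (b - 1), (1 : ℕ) = (b - 1).choose 2 := by
  obtain ⟨c, rfl⟩ : ∃ c, b = c + 1 := ⟨b - 1, by omega⟩
  simp only [Nat.add_sub_cancel]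
  simp only [sum_const, smul_eq_mul, mul_one, Nat.card_Icc]
  induction c with
  | zero => rfl
  | succ c ih =>
    rw [sum_Icc_succ_top (by omega), Nat.choose_succ_succ, ← ih (by omega)]
    have : ∀ x ∈ Icc 1 c, c + 1 + 1 - (x + 1) = (c + 1 - (x + 1)) + 1 := by
      intro x hx; rw [mem_Icc] at hx; omega
    rw [sum_congr rfl this, sum_add_distrib]
    simp
    omega

theorem fb_le_KT (σ : ℤ) (b o : ℕ) (hσ : Odd σ) (hb : b ∈ Icc 3 12) (ho : o ∈ Icc 1 b) :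
    fb b (Xi σ b o) ≤ ((KT b o : ℝ) / (10000 * ((b - 1).choose 2 : ℝ))) ^ 2 := by
  obtain ⟨s, hs16, hs⟩ : ∃ s ∈ ([1, 3, 5, 7, 9, 11, 13, 15] : List ℕ),
      ∃ t : ℤ, σ = (s : ℤ) + 16 * t := by
    refine ⟨(σ % 16).toNat, ?_, σ / 16, ?_⟩
    · have h0 : 0 ≤ σ % 16 := Int.emod_nonneg _ (by norm_num)
      have h1 : σ % 16 < 16 := Int.emod_lt_of_pos _ (by norm_num)
      obtain ⟨t, ht⟩ := hσ
      have h2 : σ % 16 % 2 = 1 := by omega
      have h3 : (σ % 16).toNat < 16 ∧ (σ % 16).toNat % 2 = 1 := by omega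
      obtain ⟨h3, h4⟩ := h3
      set m := (σ % 16).toNat
      interval_cases m <;> simp at h4 ⊢
    · have h0 : 0 ≤ σ % 16 := Int.emod_nonneg _ (by norm_num)
      omega
  have hc := chk_all s hs16 b hb o ho
  have hb3 : 3 ≤ b := (mem_Icc.1 hb).1
  have hCpos : (0 : ℝ) < ((b - 1).choose 2 : ℝ) := by
    exact_mod_cast Nat.choose_pos (by omega)
  set C : ℝ := ((b - 1).choose 2 : ℝ) with hC
  set w := ∑ p ∈ Icc 1 (b - 1), ∑ r ∈ Icc (p + 1) (b - 1), ev (Xi σ b o p + 3 * Xi σ b o r) with hw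
  have hfb : fb b (Xi σ b o) = (‖w‖ / C) ^ 2 := by unfold fb; rw [div_pow]
  rw [hfb]
  have hwC : ‖w‖ ≤ C := by
    refine (norm_sum_le _ _).trans ?_
    rw [hC, ← pairs_card b (by omega)]
    push_cast
    refine sum_le_sum fun p _ => (norm_sum_le _ _).trans ?_
    refine (sum_le_sum fun r _ => (norm_ev _).le).trans ?_
    simp
  unfold chk at hc
  rw [Bool.or_eq_true, Bool.and_eq_true, decide_eq_true_iff, decide_eq_true_iff,
    decide_eq_true_iff] at hc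
  have hmain : 10000 * ‖w‖ ≤ (KT b o : ℝ) := by
    rcases hc with hc | ⟨hc1, hc2⟩
    · rw [hc]; push_cast; linarith
    · have hk := norm_known σ s b o hs
      set z := ∑ p ∈ Icc 1 (b - 1), ∑ r ∈ Icc (p + 1) (b - 1),
        (if r + o ≤ b + 3 then ev (Xi σ b o p + 3 * Xi σ b o r) else 0) with hz
      have hsplit : w = z + ∑ p ∈ Icc 1 (b - 1), ∑ r ∈ Icc (p + 1) (b - 1),
          (if r + o ≤ b + 3 then 0 else ev (Xi σ b o p + 3 * Xi σ b o r)) := by
        rw [hw, hz, ← sum_add_distrib]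
        refine sum_congr rfl fun p _ => ?_
        rw [← sum_add_distrib]
        refine sum_congr rfl fun r _ => ?_
        split_ifs <;> simp
      have hu : ‖∑ p ∈ Icc 1 (b - 1), ∑ r ∈ Icc (p + 1) (b - 1),
          (if r + o ≤ b + 3 then 0 else ev (Xi σ b o p + 3 * Xi σ b o r))‖ ≤ (unk b o : ℝ) := by
        unfold unk
        push_cast
        refine (norm_sum_le _ _).trans (sum_le_sum fun p _ => (norm_sum_le _ _).trans
          (sum_le_sum fun r _ => ?_))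
        split_ifs
        · simp
        · rw [norm_ev]
      have h3 : (10000 * ‖z‖) ^ 2 ≤ ((KT b o : ℝ) - 10000 * (unk b o : ℝ)) ^ 2 := by
        refine hk.trans ?_
        exact_mod_cast hc2
      have h4 : 10000 * ‖z‖ ≤ (KT b o : ℝ) - 10000 * (unk b o : ℝ) := by
        have h5 : (0 : ℝ) ≤ (KT b o : ℝ) - 10000 * (unk b o : ℝ) := by
          have : ((10000 * unk b o : ℕ) : ℝ) ≤ (KT b o : ℝ) := by exact_mod_cast hc1
          push_cast at this; linarith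
        exact (sq_le_sq₀ (by positivity) h5).1 h3
      have h6 : ‖w‖ ≤ ‖z‖ + (unk b o : ℝ) := by
        rw [hsplit]; exact (norm_add_le _ _).trans (by linarith)
      linarith
  have h7 : ‖w‖ / C ≤ (KT b o : ℝ) / (10000 * C) := by
    rw [div_le_div_iff₀ hCpos (by positivity)]
    nlinarith
  exact pow_le_pow_left₀ (by positivity) h7 2

theorem hNu : StNu := by
  refine ⟨fun b o => ((KT b o : ℝ) / (10000 * ((b - 1).choose 2 : ℝ))) ^ 2, fun b o => sq_nonneg _,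
    fun σ b o hσ hb ho => fb_le_KT σ b o hσ hb ho, ?_⟩
  have hI : ∀ F : ℕ → ℝ, ∑ b ∈ Icc (3 : ℕ) 12, F b =
      F 3 + F 4 + F 5 + F 6 + F 7 + F 8 + F 9 + F 10 + F 11 + F 12 := by
    intro F
    rw [show Icc (3 : ℕ) 12 = {3, 4, 5, 6, 7, 8, 9, 10, 11, 12} by decide]
    simp
    ring
  rw [hI, hI]
  unfold P3
  have c3 : (3 - 1).choose 2 = 1 := by decide
  have c4 : (4 - 1).choose 2 = 3 := by decide
  have c5 : (5 - 1).choose 2 = 6 := by decide
  have c6 : (6 - 1).choose 2 = 10 := by decide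
  have c7 : (7 - 1).choose 2 = 15 := by decide
  have c8 : (8 - 1).choose 2 = 21 := by decide
  have c9 : (9 - 1).choose 2 = 28 := by decide
  have c10 : (10 - 1).choose 2 = 36 := by decide
  have c11 : (11 - 1).choose 2 = 45 := by decide
  have c12 : (12 - 1).choose 2 = 55 := by decide
  rw [c3, c4, c5, c6, c7, c8, c9, c10, c11, c12]
  simp only [sum_Icc_succ_top (show (1 : ℕ) ≤ 11 + 1 by norm_num),
    sum_Icc_succ_top (show (1 : ℕ) ≤ 10 + 1 by norm_num),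
    sum_Icc_succ_top (show (1 : ℕ) ≤ 9 + 1 by norm_num),
    sum_Icc_succ_top (show (1 : ℕ) ≤ 8 + 1 by norm_num),
    sum_Icc_succ_top (show (1 : ℕ) ≤ 7 + 1 by norm_num),
    sum_Icc_succ_top (show (1 : ℕ) ≤ 6 + 1 by norm_num),
    sum_Icc_succ_top (show (1 : ℕ) ≤ 5 + 1 by norm_num),
    sum_Icc_succ_top (show (1 : ℕ) ≤ 4 + 1 by norm_num),
    sum_Icc_succ_top (show (1 : ℕ) ≤ 3 + 1 by norm_num),
    sum_Icc_succ_top (show (1 : ℕ) ≤ 2 + 1 by norm_num),
    sum_Icc_succ_top (show (1 : ℕ) ≤ 1 + 1 by norm_num), Icc_self, sum_singleton, KT]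
  norm_num [show Nat.choose 2 2 = 1 by decide, show Nat.choose 3 2 = 3 by decide,
    show Nat.choose 4 2 = 6 by decide, show Nat.choose 5 2 = 10 by decide,
    show Nat.choose 6 2 = 15 by decide, show Nat.choose 7 2 = 21 by decide,
    show Nat.choose 8 2 = 28 by decide, show Nat.choose 9 2 = 36 by decide,
    show Nat.choose 10 2 = 45 by decide, show Nat.choose 11 2 = 55 by decide]

end Pool.Agent.Helper76.ND
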