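import Pool.Agent.Helper67.ND.M_Cv
import Pool.Agent.Helper23.ND.M_Pb
import Pool.Agent.Helper80.ND.M_Gen
import Pool.Agent.Helper17.ND.M_Ren
import Pool.Agent.Helper3.ND.M_Wh
import Pool.Agent.Helper17.ND.M_Lz
import Pool.Agent.Helper61.ND.M_Sm
import Pool.Agent.Helper93.ND.M_Bk
import Pool.Agent.Helper41.ND.M_Ru
import Pool.Agent.Helper79.ND.M_Bz
import Pool.Agent.Helper4.ND.M_Bt
import Pool.Agent.Helper76.ND.M_Nu
import Pool.Agent.Helper42.ND.M_Bb
import Pool.Agent.Helper13.ND.M_Ex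
import Pool.Agent.Helper42.ND.M_F
import Pool.Agent.Helper17.ND.M_Ns
import Pool.Agent.Helper17.ND.M_Pe
import Pool.Agent.Helper17.ND.M_Qs
import Pool.Agent.Helper17.ND.M_Tr
import Pool.Agent.Helper17.ND.M_Sp
import Pool.Agent.Helper91.ND.M_Yz
import Pool.Agent.Helper91.ND.M_Wb
import Pool.Agent.Helper91.ND.M_Wc
import Pool.Agent.Helper42.ND.M_Pl
import Pool.Agent.Helper17.ND.M_Ob
import Pool.Agent.Helper27.ND.M_Lb
import Pool.Agent.Helper43.ND.M_Co
import Pool.Agent.Helper43.ND.M_Fa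
import Pool.Agent.Helper17.ND.M_De
import Pool.Agent.Helper17.ND.M_Cn
import Pool.Agent.Helper43.ND.M_Ho
import Pool.Agent.Helper15.ND.M_Sq
import Pool.Agent.Helper43.ND.M_Or
import Pool.Agent.Helper75.ND.M_Oh
import Pool.Agent.Helper27.ND.M_Og
import Pool.Agent.Helper42.ND.M_On
import Pool.Agent.Helper91.ND.M_Tw
import Pool.Agent.Helper27.ND.M_Ch
import Pool.Agent.Helper43.ND.M_Tv
import Pool.Agent.Helper42.ND.M_In
import Pool.Agent.Helper91.ND.M_Mi
import Pool.Agent.Helper17.ND.M_Rl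
import Pool.Agent.Helper17.ND.M_Bw
import Pool.Agent.Helper17.ND.M_Cy
import Pool.Agent.Helper4.ND.M_Bd
import Pool.Agent.Helper39.ND.M_Bn
import Pool.Agent.Helper39.ND.M_Dr
import Pool.Agent.Helper31.ND.M_Pr
import Pool.Agent.Helper77.ND.M_Vh
import Pool.Agent.Helper83.ND.M_Vi
import Pool.Agent.Helper15.ND.M_Po
import Pool.Agent.Helper83.ND.M_Fw
import Pool.Agent.Helper24.ND.M_Li
import Pool.Agent.Helper77.ND.M_Er
import Pool.Agent.Helper17.ND.M_Te
import Pool.Agent.Helper42.ND.M_Tl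
import Pool.Agent.Helper31.ND.M_Mn
import Pool.Agent.Helper42.ND.M_Sd
import Pool.Agent.Helper83.ND.M_Eq
import Pool.Agent.Helper15.ND.M_Bs
import Pool.Agent.Helper31.ND.M_It
import Pool.Agent.Helper27.ND.M_Ct
import Pool.Agent.Helper27.ND.M_Fi

/-!
# Project ND: assembly
-/

set_option autoImplicit false

namespace Pool.Agent.Helper76.ND

theorem pCv : StCv := Pool.Agent.Helper67.ND.hCv

theorem pPb : StPb := Pool.Agent.Helper23.ND.hPb

theorem pGen : StGen := Pool.Agent.Helper80.ND.hGen pCv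

theorem pRen : StRen := Pool.Agent.Helper17.ND.hRen pCv

theorem pWh : StWh := Pool.Agent.Helper3.ND.hWh pPb

theorem pLz : StLz := Pool.Agent.Helper17.ND.hLz pPb

theorem pSm : StSm := Pool.Agent.Helper61.ND.hSm pPb pLz

theorem pBk : StBk := Pool.Agent.Helper93.ND.hBk

theorem pRu : StRu := Pool.Agent.Helper41.ND.hRu pPb pCv

theorem pBz : StBz := Pool.Agent.Helper79.ND.hBz pGen

theorem pBt : StBt := Pool.Agent.Helper4.ND.hBt pGen pCv

theorem pNu : StNu := Pool.Agent.Helper76.ND.hNu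

theorem pBb : StBb := Pool.Agent.Helper42.ND.hBb pPb pCv pRen pLz pRu pNu pBz pBt

theorem pEx : StEx := Pool.Agent.Helper13.ND.hEx pGen

theorem pF : StF := Pool.Agent.Helper42.ND.hF pPb pWh pSm pBk pBb pEx

theorem pNs : StNs := Pool.Agent.Helper17.ND.hNs pGen

theorem pPe : StPe := Pool.Agent.Helper17.ND.hPe

theorem pQs : StQs := Pool.Agent.Helper17.ND.hQs pGen pCv

theorem pTr : StTr := Pool.Agent.Helper17.ND.hTr

theorem pSp : StSp := Pool.Agent.Helper17.ND.hSp pCv pTr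

theorem pYz : StYz := Pool.Agent.Helper91.ND.hYz

theorem pWb : StWb := Pool.Agent.Helper91.ND.hWb pYz

theorem pWc : StWc := Pool.Agent.Helper91.ND.hWc pYz pWb

theorem pPl : StPl := Pool.Agent.Helper42.ND.hPl pYz

theorem pOb : StOb := Pool.Agent.Helper17.ND.hOb

theorem pLb : StLb := Pool.Agent.Helper27.ND.hLb pPb pQs pYz pWc pPl pOb

theorem pCo : StCo := Pool.Agent.Helper43.ND.hCo pYz

theorem pFa : StFa := Pool.Agent.Helper43.ND.hFa

theorem pDe : StDe := Pool.Agent.Helper17.ND.hDe pYz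

theorem pCn : StCn := Pool.Agent.Helper17.ND.hCn pYz

theorem pHo : StHo := Pool.Agent.Helper43.ND.hHo

theorem pSq : StSq := Pool.Agent.Helper15.ND.hSq

theorem pOr : StOr := Pool.Agent.Helper43.ND.hOr pYz

theorem pOh : StOh := Pool.Agent.Helper75.ND.hOh pOb pCn pDe pCo pQs

theorem pOg : StOg := Pool.Agent.Helper27.ND.hOg pPb pF pYz pLb pOr pPl pCo

theorem pOn : StOn := Pool.Agent.Helper42.ND.hOn pCn pOh pOg pFa pHo pSq pGen pNs

theorem pTw : StTw := Pool.Agent.Helper91.ND.hTw pNs pPe pSp pQs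

theorem pCh : StCh := Pool.Agent.Helper27.ND.hCh pOn pTw pNs pPe pQs

theorem pTv : StTv := Pool.Agent.Helper43.ND.hTv

theorem pIn : StIn := Pool.Agent.Helper42.ND.hIn pSp pCv pNs pQs pTv

theorem pMi : StMi := Pool.Agent.Helper91.ND.hMi pTr pNs pPe pQs pCh pIn

theorem pRl : StRl := Pool.Agent.Helper17.ND.hRl

theorem pBw : StBw := Pool.Agent.Helper17.ND.hBw pRl

theorem pCy : StCy := Pool.Agent.Helper17.ND.hCy pRl

theorem pBd : StBd := Pool.Agent.Helper4.ND.hBd pHo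

theorem pBn : StBn := Pool.Agent.Helper39.ND.hBn pCy pBd

theorem pDr : StDr := Pool.Agent.Helper39.ND.hDr

theorem pPr : StPr := Pool.Agent.Helper31.ND.hPr

theorem pVh : StVh := Pool.Agent.Helper77.ND.hVh pRl pDr pPr

theorem pVi : StVi := Pool.Agent.Helper83.ND.hVi pPr pVh

theorem pPo : StPo := Pool.Agent.Helper15.ND.hPo

theorem pFw : StFw := Pool.Agent.Helper83.ND.hFw pBw pBn pPr pPo pVi

theorem pLi : StLi := Pool.Agent.Helper24.ND.hLi pBd pDr pPr pPo

theorem pEr : StEr := Pool.Agent.Helper77.ND.hEr pNs pPe pQs pPo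

theorem pTe : StTe := Pool.Agent.Helper17.ND.hTe pPo

theorem pTl : StTl := Pool.Agent.Helper42.ND.hTl pPo

theorem pMn : StMn := Pool.Agent.Helper31.ND.hMn pPr pNs pPo pTe pTl

theorem pSd : StSd := Pool.Agent.Helper42.ND.hSd pMi

theorem pEq : StEq := Pool.Agent.Helper83.ND.hEq pPr pPo pFw pLi pEr pMn pSd

theorem pBs : StBs := Pool.Agent.Helper15.ND.hBs pRl pBn pPo

theorem pIt : StIt := Pool.Agent.Helper31.ND.hIt pEq pBs

theorem pCt : StCt := Pool.Agent.Helper27.ND.hCt pIt pPo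

theorem pFi : StFi := Pool.Agent.Helper27.ND.hFi pCt

end Pool.Agent.Helper76.ND
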