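import Pool.Agent.Helper76.ND.Lib

/-!
# Project ND, part C: decay of the mean of products of blocks (`Psi`)

Goal of this part: `StF`, a bound `Psi K k X ≤ C (k+1) ^ (-13/25)` for all halving sequences `X` of
denominator `3 ^ n`, `3 k ≤ n ≤ 3 k + 2`.  Idea: a block that starts at a state with `X 3` not near
an integer costs a factor `1 - δ`; near an integer the sequence is `2 ^ (..)` times an odd number
plus something tiny, nothing is gained until the position `Tt + 4`, where the phase is `1/2`, and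
the block which contains this position costs in the mean a factor `.415` (`StBb`); the stretch
uses at most `4/5` of the blocks, and `.415 * 5 ^ .52 < 1`.

All positions inside a block of length `b` are `1, ..., b`; the third head is at `b`.
-/

set_option autoImplicit false

noncomputable section

namespace Pool.Agent.Helper76.ND

open Finset

/-- **Cv** (convolution).  Proof: let `c a s` be the right side for fixed `b`.  `c 0 s = qs b s`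
(only `s' = 0`).  Use `qs (n+1) (s+1) = (qs (n+1) s + qs n s) / 2` (Pascal; true for all `n, s`,
check the cases `s = 0` and `n = 0`) to get `c (a+1) (s+1) = (c (a+1) s + c a s) / 2` (the term
`s' = 0` of the left side vanishes) and the same recursion for the left side; both are `0` at
`(a+1, 0)`. -/
def StCv : Prop := (∀ n s : ℕ, qs (n + 1) (s + 1) = (qs (n + 1) s + qs n s) / 2) ∧
  (∀ a b s : ℕ, qs (a + b) s = ∑ s' ∈ range (s + 1), qs a s' * qs b (s - s')) ∧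
  (∀ b : ℕ, 1 ≤ b → P3 b = qs 3 b) ∧ (∀ n s : ℕ, s < n → qs n s = 0)

/-- **Pb** (simple properties).  (1) `fb ≤ 1`: triangle inequality, the number of pairs `p < r` in
`[1, b-1]` is `(b-1).choose 2`, `norm_ev`; for `b < 3` the denominator is `0` (`x / 0 = 0`).
(2) `∑_{b=3}^{K} P3 b = 1 - (K^2 + K + 2) / 2^(K+1)` for `K ≥ 2` (induction).  (3)-(5) induction
on `k`.  (6) `ev` has period one. (7) induction on `k` (`27 m` is an integer). (8) `27 c / 3^(n+3) =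
c / 3^n`. -/
def StPb : Prop :=
  (∀ b X, fb b X ≤ 1) ∧
  (∀ K, ∑ b ∈ Icc 3 K, P3 b ≤ 1) ∧
  (∀ K k X, 0 ≤ Psi K k X) ∧ (∀ K k X, Psi K k X ≤ 1) ∧
  (∀ K k X, Psi K (k + 1) X ≤ Psi K k X) ∧
  (∀ (b : ℕ) (X Y : ℕ → ℝ), (∀ p, ∃ m : ℤ, X p = Y p + m) → fb b X = fb b Y) ∧
  (∀ (K k : ℕ) (X Y : ℕ → ℝ), (∀ p, ∃ m : ℤ, X p = Y p + m) → Psi K k X = Psi K k Y) ∧
  (∀ (n b : ℕ) (X : ℕ → ℝ), Cls (n + 3) X → Cls n (fun a => 27 * X (b + a)))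

/-- **Gen** (generating function).  Proof: induction on `n`; with `F n K` the left side,
`F (n+1) (K+1) = ∑_{s<K} qs (n+1) (s+1) z^(s+1) = (z/2) (F (n+1) K + F n K) ≤
(z/2) (F (n+1) (K+1) + F n K)`, so `F (n+1) (K+1) ≤ z/(2-z) F n K`.  (Recursion from `StCv`.) -/
def StGen : Prop := ∀ (n K : ℕ) (z : ℝ), 0 < z → z < 2 →
  ∑ s ∈ range K, qs n s * z ^ s ≤ (z / (2 - z)) ^ n

/-- **Ren** (renewal).  Proof: `a_r(B) = ∑_{j ≤ B} qs (3j+r) B`, `r = 0,1,2` (terms with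
`3j + r > B` vanish).  For `B ≥ 1`, by the recursion of `StCv`,
`a_r(B+1) = (a_r(B) + a_{r-1}(B)) / 2` (indices modulo `3`; for `r = 0` the term `j = 0` is zero
on both sides since `qs 0 B = 0` for `B ≥ 1`), and `a_0 + a_1 + a_2 = 1/2` (sum over `n ≥ 1` of
`C(B-1, n-1) / 2^B`).  Put `d_r = a_r - 1/6`: `∑ d_r = 0`, so `d_r(B+1) = - d_{r+1}(B) / 2`;
`d(1) = (-1/6, 1/3, -1/6)`.  Hence `|d_r(B)| ≤ (1/3) / 2^(B-1) ≤ (1/2)^B` for `B ≥ 1`.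
For `B = 0` the sum is `qs 0 0 = 1`. -/
def StRen : Prop := ∀ B : ℕ, ∑ j ∈ range (B + 1), qs (3 * j) B ≤ 1 / 6 + (1 / 2 : ℝ) ^ B

/-- **Wh** (white block).  Proof: let `y = X 3`; then `X 2 = 2 y`, `X 1 = 4 y` modulo one.  For
`K ≤ 3` the sum is at most `P3 3 = 1/8`.  For `K ≥ 4`: the sum is
`≤ ∑_{b ≠ 4} P3 b + P3 4 * fb 4 X ≤ 1 - P3 4 (1 - fb 4 X)`, `P3 4 = 3/16`, and
`fb 4 X = |e(10y) + e(7y) + e(5y)|^2 / 9 = (3 + 2 (cos 2π3y + cos 2π2y + cos 2π5y)) / 9`.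
One of `2y`, `3y` has distance at least `ε/2` from the integers (otherwise `y = 3y - 2y` has
distance `< ε`), so its cosine is `≤ cos (π ε)`, so `fb 4 X ≤ 1 - (2/9) c0`, `c0 = 1 - cos (π ε)`.
Take `δ = c0 / 24`.  (The distance of `y` from the integers is at least `ε` by hypothesis.)
Uses `StPb`. -/
def StWh : Prop := ∀ ε : ℝ, 0 < ε → ε < 1 / 4 → ∃ δ : ℝ, 0 < δ ∧ ∀ (K : ℕ) (X : ℕ → ℝ),
  (∀ j, ∃ m : ℤ, 2 * X (j + 1) = X j + m) → (∀ m : ℤ, ε ≤ |X 3 - m|) →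
  ∑ b ∈ Icc 3 K, P3 b * fb b X ≤ 1 - δ

/-- **Lz** (Lipschitz).  Proof: by periodicity we may assume `m = 0` (write `ev (X p + 3 X r)` and
shift by integers).  The phase `X p + 3 X r` changes by at most `4 η`, so each summand by at most
`8 π η` (`norm_ev_sub_le`), hence the mean `f` by at most `8 π η`; and `| |f|^2 - |g|^2 | ≤
2 | |f| - |g| |` as both are `≤ 1`.  (Only `p, r ∈ [1, b-1]` enter.) -/
def StLz : Prop := ∀ (b : ℕ) (X Y : ℕ → ℝ) (η : ℝ), 0 ≤ η →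
  (∀ p ∈ Icc 1 (b - 1), ∃ m : ℤ, |X p - Y p - m| ≤ η) →
  fb b X ≤ fb b Y + 16 * Real.pi * η

/-- **Sm** (short black stretch).  Proof: let `b = Tt + 5`.  If `K < b`, the sum is at most
`∑_{Icc 3 K} P3 ≤ 1 - P3 b` (`StPb` for `K' = b`), and `P3 b ≥ 2 ^ (-(T0 + 5))`.  Otherwise the sum
is `≤ 1 - P3 b (1 - fb b X)`.  With the ideal phases (`Y p = s 2^(Tt+3-p)`: an integer for
`p ≤ Tt + 3`, `s/2` for `p = Tt + 4 = b - 1`) the summand `ev (Y p + 3 Y r)` is `1` for `r < b - 1`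
and `-1` for `r = b - 1` (`3 s / 2` is half an odd integer), so `fb b Y = (1 - 4/(b-1))^2`
(`b - 2` of the `(b-1)(b-2)/2` pairs have sign `-1`) `≤ 1 - 4/(b-1)` as `b - 1 ≥ 4`.  By `StLz`
`fb b X ≤ 1 - 4/(b-1) + 16 π ε`; take `ε` with `16 π ε ≤ 2 / (T0 + 4)`; then
`fb b X ≤ 1 - 2/(T0+4)`, `δ = 2 ^ (-(T0+5)) * 2/(T0+4)` works (note `P3 b ≥ 2^(-b)`). -/
def StSm : Prop := ∀ T0 : ℕ, ∃ ε δ : ℝ, 0 < ε ∧ 0 < δ ∧
  ∀ (K Tt : ℕ) (s : ℤ) (X : ℕ → ℝ), Odd s → Tt < T0 →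
  (∀ p : ℕ, 1 ≤ p → p ≤ Tt + 4 → ∃ m : ℤ, |X p - s * (2 : ℝ) ^ ((Tt : ℤ) + 3 - p) - m| ≤ ε) →
  ∑ b ∈ Icc 3 K, P3 b * fb b X ≤ 1 - δ

/-- **Bk** (structure near an integer).  Proof: `X 3 = c0/3^n + m0`, `c = c0 + (m0 - m) 3^n`, so
`X 3 = c/3^n + m`, `|c| ≤ ε 3^n`, `3 ∤ c` (`n ≥ 1`), so `c ≠ 0`; write `c = 2^Tt c'`, `c'` odd;
`2^Tt ≤ |c|`.  Iterating the halving relation, `2^i X (3+i) = c/3^n + m_i` with an integer `m_i`.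
Let `i1 = Tt + 1 + I`, `m* = m_{i1}`.  As `X (3+i1) = c1/3^n + m1`, clearing denominators:
`2^i1 (c1 + 3^n m1) = c + 3^n m*`, so `2^i1 ∣ c + 3^n m*`; since `i1 > Tt`, `2^Tt` divides `m*`
exactly: `m* = 2^Tt s`, `s` odd.  For `i ≤ i1`, `X (3+i) ≡ 2^(i1-i) X (3+i1) = (c/3^n + m*) / 2^i`
modulo one, which is the claim for `p = 3 + i`.  For `p < 3`, `X p ≡ 2^(3-p) X 3 ≡
c 2^(3-p)/3^n`, and `s 2^(Tt+3-p)` is an integer. -/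
def StBk : Prop := ∀ (n I : ℕ) (ε : ℝ) (X : ℕ → ℝ) (m : ℤ), 1 ≤ n → 0 < ε → ε < 1 / 2 → Cls n X →
  |X 3 - m| ≤ ε →
  ∃ (c s : ℤ) (Tt : ℕ), Odd s ∧ |(c : ℝ)| ≤ ε * 3 ^ n ∧ (2 : ℝ) ^ Tt ≤ |(c : ℝ)| ∧
    ∀ p : ℕ, p ≤ Tt + 4 + I → ∃ m' : ℤ,
      X p = s * (2 : ℝ) ^ ((Tt : ℤ) + 3 - p) + c * (2 : ℝ) ^ (3 - (p : ℤ)) / 3 ^ n + m'

/-- **Ru** (run until the first block that passes the position `θ`).  Proof: induction on `J`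
(all `K, k, θ, X`).  `J = 0`: the second sum is `qs 0 0 = 1 ≥ Psi`.  Step `J + 1 ≤ k`: expand
`Psi K k X = ∑_b P3 b fb b X Psi K (k-1) (sh 1 b X)`.  The terms with `b > θ` are the terms
`j = 0, B = 0` of the right side (`qs 0 0 = 1`, `qs 0 B = 0` otherwise, `sh 0 0 X = X`).  For
`b ≤ θ` use `fb ≤ 1` and the induction hypothesis for `sh 1 b X`, `θ - b`, `k - 1`, `J`:
`sh j B (sh 1 b X) = sh (j+1) (b+B) X`, and collect with `B' = b + B`: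
`∑_{3 ≤ b ≤ B'} P3 b qs (3j) (B'-b) = qs (3j+3) B'` (`StCv` with `a = 3`; the sum over
`b ∈ Icc 3 K` is at most that, all terms are nonnegative).  Uses `StPb`, `StCv`. -/
def StRu : Prop := ∀ (K k J θ : ℕ) (X : ℕ → ℝ), J ≤ k →
  Psi K k X ≤ ∑ j ∈ range J, ∑ B ∈ range (θ + 1), qs (3 * j) B *
      ∑ b ∈ (Icc 3 K).filter (fun b => θ < B + b),
        P3 b * (fb b (sh j B X) * Psi K (k - j - 1) (sh (j + 1) (B + b) X)) +
    ∑ B ∈ range (θ + 1), qs (3 * J) B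

/-- **Nu** (numerical, taken by helper76). -/
def StNu : Prop := ∃ V : ℕ → ℕ → ℝ, (∀ b o, 0 ≤ V b o) ∧
  (∀ (σ : ℤ) (b o : ℕ), Odd σ → b ∈ Icc 3 12 → o ∈ Icc 1 b → fb b (Xi σ b o) ≤ V b o) ∧
  ∑ b ∈ Icc 3 12, ∑ o ∈ Icc 1 b, P3 b / 6 * V b o + (1 - ∑ b ∈ Icc (3 : ℕ) 12, (b : ℝ) * P3 b / 6)
    ≤ 41 / 100

/-- **Bz** (bad sizes are rare).  Proof: the summand is at most
`qs (3j) B * √(27^j / (10^8 2^B)) = 10^(-4) (√27)^j qs (3j) B z^B` with `z = 2^(-1/2)`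
(`√(27^j/(10^8 2^B)) > 1` if the condition holds).  By `StGen` the sum over `B` is at most
`(z/(2-z))^(3j) = (1/(2√2-1))^(3j)`, so the total is at most `10^(-4) ∑_j r^j` with
`r = √27/(2√2-1)^3 < 851/1000`, i.e. at most `10^(-4)/(149/1000) < 7/10000`.
Uses `StGen`. -/
def StBz : Prop := ∀ J θ : ℕ, ∑ j ∈ range J, ∑ B ∈ range (θ + 1),
  (if 10 ^ 8 * 2 ^ B < 27 ^ j then qs (3 * j) B else 0) ≤ 7 / 10000

/-- **Bt** (tails).  Proof: (1) `P3 b ≤ P3 b (3/2)^(b - (θ - B))` for `b > θ - B`, and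
`∑_b P3 b (3/2)^b ≤ ((3/2)/(1/2))^3 = 27` (`StGen` with `n = 3`, `z = 3/2`, and `P3 = qs 3`), so the
inner sum is at most `27 (2/3)^(θ-B)`, and
`∑_{B ≤ θ} (1/2)^B 27 (2/3)^(θ-B) = 27 (2/3)^θ ∑ (3/4)^B ≤ 108 (2/3)^θ`.
(2) `∑_{b=3}^{K} b P3 b ≤ 6` for all `K`: `b P3 b = 3 C(b,3)/2^b = 6 qs 4 (b+1)` and
`∑ qs 4 ≤ 1` (`StGen` with `z = 1`).  For `K ≥ 12` split at `12`; for `K < 12` the left side is `0`
and the right side is nonnegative.  Uses `StGen`, `StCv`. -/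
def StBt : Prop := (∀ K θ : ℕ, ∑ B ∈ range (θ + 1), (1 / 2 : ℝ) ^ B *
    ∑ b ∈ (Icc 3 K).filter (fun b => θ < B + b), P3 b ≤ 108 * (2 / 3 : ℝ) ^ θ) ∧
  (∀ K : ℕ, ∑ b ∈ Icc (13 : ℕ) K, (b : ℝ) * P3 b ≤ 6 - ∑ b ∈ Icc (3 : ℕ) 12, (b : ℝ) * P3 b)

/-- **Bb** (long black stretch).  Proof: `ε = 10^(-15)`, `T0 = 200`, `θ = Tt + 4`.  By `StRu` and
the hypothesis on `R`,
`Psi K k X ≤ R * Σ + ∑_{B ≤ θ} qs (3J) B`,
`Σ = ∑_{j<J} ∑_{B ≤ θ} qs (3j) B ∑_{b ∈ Icc 3 K, θ < B+b} P3 b fb b (sh j B X)`.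
Let `Q B = ∑_{j<J} qs (3j) B ≤ 1/6 + 2^(-B)` (`StRen`; terms `j > B` vanish).
* For `b ≥ 13` use `fb ≤ 1`: at most
  `∑_{B ≤ θ} (1/6 + 2^(-B)) ∑_{b ≥ 13, θ < B+b} P3 b`.
* For `b ≤ 12` let `o = B + b - θ ∈ [1, b]`.  If `27^j ≤ 10^8 2^B` (good size): for `1 ≤ p ≤ b`
  (so `B + p ≤ Tt + K + 5`), `sh j B X p = 27^j X (B+p)` equals, modulo one,
  `27^j s 2^(θ-1-B-p) + 27^j c 2^(3-B-p)/3^n`, the first summand is `Xi σ b o p` with `σ = 27^j s`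
  odd (`θ - 1 - B = b - o - 1`), the second has absolute value `≤ ε 27^j 2^(2-B) ≤ 4·10^(-7)`.
  By `StLz`, `fb b (sh j B X) ≤ V b o + 16 π 4·10^(-7) ≤ V b o + 1/10000`, and also `≤ 1`.  If the
  size is bad use `fb ≤ 1`.  So
  `∑_j qs (3j) B fb ≤ (1/6) (V b o + 1/10000) + 2^(-B) + ∑_{j bad} qs (3j) B`
  (write `Q B ≤ 1/6 + 2^(-B)` and use the bound `V + ..` on the part `1/6`, the bound `1` on the
  rest: `Q B * min(1, v) ≤ (1/6) v + 2^(-B)`).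
* Sum: the parts `1/6` give
  `∑_{b=3}^{12} ∑_o P3 b/6 (V b o + 1/10000) + ∑_{b=13}^{K} b P3 b / 6` (each `b` belongs to at most
  `b` values of `B`), at most `41/100 + 1/10000` by `StNu` and `StBt` (2) (and
  `∑ b P3 b / 6 ≤ 1`); the parts `2^(-B)` give at most `108 (2/3)^θ` (`StBt` (1)), the bad sizes
  `7/10000` (`StBz`, `∑ P3 ≤ 1`).  Total `≤ 83/200`.
Uses `StPb`, `StCv`, `StRen`, `StLz`, `StRu`, `StNu`, `StBz`, `StBt`. -/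
def StBb : Prop := ∃ (ε : ℝ) (T0 : ℕ), 0 < ε ∧ ε ≤ 1 / 1000 ∧
  ∀ (K n k J Tt : ℕ) (s c : ℤ) (R : ℝ) (X : ℕ → ℝ), Odd s → |(c : ℝ)| ≤ ε * 3 ^ n → T0 ≤ Tt →
  J ≤ k → 0 ≤ R →
  (∀ p : ℕ, p ≤ Tt + K + 5 → ∃ m : ℤ,
    X p = s * (2 : ℝ) ^ ((Tt : ℤ) + 3 - p) + c * (2 : ℝ) ^ (3 - (p : ℤ)) / 3 ^ n + m) →
  (∀ j < J, ∀ B, Psi K (k - j - 1) (sh (j + 1) B X) ≤ R) →
  Psi K k X ≤ 83 / 200 * R + ∑ B ∈ range (Tt + 5), qs (3 * J) B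

/-- **Ex** (the remainder is exponentially small).  Proof: `z = 99/100`:
`∑_{B < Tt+5} qs (3J) B ≤ z^(-(Tt+4)) (z/(2-z))^(3J)` (`StGen`).  `Tt ≤ (3k+2) log 3/log 2 ≤
(317/200)(3k+2)` (`3^200 < 2^317`), `3J ≥ (12k-12)/5`, `z/(2-z) = 99/101`.  So the sum is at most
`C1 r^k`, `r = (99/101)^(12/5) (100/99)^(951/200) < 1` (`951/200 = 3*317/200`; raise to the
power `200`: `99^480 * 100^951 < 101^480 * 99^951`).  And `(k+1) r^k` is bounded, `(k+1)^(13/25) ≤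
k+1`, and to make the constant small take `C` large.  Uses `StGen`. -/
def StEx : Prop := ∃ C : ℝ, 0 < C ∧ ∀ k Tt : ℕ, (2 : ℝ) ^ Tt ≤ 3 ^ (3 * k + 2) →
  ∑ B ∈ range (Tt + 5), qs (3 * (4 * k / 5)) B ≤ C * (k + 1 : ℝ) ^ (-(13 / 25) : ℝ)

/-- **F** (main estimate of part C).  Proof: `ε1, T0` from `StBb`, `ε2, δ2` from `StSm T0`,
`ε = min ε1 (ε2/4)`, `δ1` from `StWh ε`, `δ = min δ1 δ2 (1/2)`, `k0 = ⌈1/δ⌉ + 1`, `C' ` from `StEx`,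
`C = max ((k0+1)^(13/25)) (25 C')`.  Strong induction on `k` (all `n, X`).
* `k < k0`: `Psi ≤ 1 ≤ C (k+1)^(-13/25)`.
* `k ≥ k0` and `ε ≤ |X 3 - m|` for all `m`, or the case of `StSm` below: `Psi K k X =
  ∑ P3 b fb b X Psi K (k-1) (27 X (b+·)) ≤ (1-δ) C k^(-13/25) ≤ C (k+1)^(-13/25)`, because
  `(1+1/k)^(13/25) ≤ 1 + 1/k ≤ 1 + δ ≤ 1/(1-δ)`; the class of the new sequence is `n - 3` (`StPb`).
* otherwise `|X 3 - m| ≤ ε`; `StBk` with `I = K + 1` gives `c, s, Tt`.  If `Tt < T0`, `StSm` applies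
  (`|c 2^(3-p)/3^n| ≤ 4 ε ≤ ε2`).  If `Tt ≥ T0` apply `StBb` with `J = 4k/5` (integer part) and
  `R = C 5^(13/25) (k+1)^(-13/25)`: for `j < J` the sequence `sh (j+1) B X` has class
  `n - 3(j+1)`, so the induction hypothesis gives `C (k-j)^(-13/25)`, and `k - j ≥ k - J + 1 ≥
  (k+1)/5`.  `(83/200) 5^(13/25) ≤ 96/100` (i.e. `5^13 ≤ (192/83)^25`), and the remainder is
  `≤ C' (k+1)^(-13/25) ≤ (4/100) C (k+1)^(-13/25)` by `StEx`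
  (`2^Tt ≤ |c| ≤ ε 3^n ≤ 3^(3k+2)`).
Uses `StPb`, `StWh`, `StSm`, `StBk`, `StBb`, `StEx`. -/
def StF : Prop := ∃ C : ℝ, 0 < C ∧ ∀ (K k n : ℕ) (X : ℕ → ℝ), 3 * k ≤ n → n ≤ 3 * k + 2 →
  Cls n X → Psi K k X ≤ C * (k + 1 : ℝ) ^ (-(13 / 25) : ℝ)

end Pool.Agent.Helper76.ND
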